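import Pool.Agent.W570.Sym.Frame

/-!
The symmetrization in coordinates.
-/

namespace Pool.Agent.W570.Sym

open MeasureTheory Module Set Filter Topology
open scoped ENNReal
open Pool.Agent.Results.MP_b62b68_gt.NoSymmetrization

/-- The properties of the extended map. -/
structure Ext2 {n : ℕ} (H : Submodule ℝ (E n)) (j : ℕ) (D : Set (E n) → Set (E n)) : Prop where
  compact : ∀ K ∈ nonemptyCompactConvex n, IsCompact (D K)
  convex : ∀ K ∈ nonemptyCompactConvex n, Convex ℝ (D K)
  symm : ∀ K ∈ nonemptyCompactConvex n, ∀ x ∈ D K, H.reflection x ∈ D K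
  mono : ∀ K ∈ nonemptyCompactConvex n, ∀ L ∈ nonemptyCompactConvex n, K ⊆ L → D K ⊆ D L
  pres : ∀ K ∈ nonemptyCompactConvex n, V n j (D K) = V n j K
  proj : ∀ K ∈ nonemptyCompactConvex n, ∀ x ∈ D K, ∃ y ∈ K,
    H.starProjection y = H.starProjection x

/-- A frame adapted to the hyperplane. -/
structure FrH {n k : ℕ} (H : Submodule ℝ (E n)) (a u : E n) (b : Fin k → E n) : Prop
    extends Fr a u b where
  aH : a ∈ H
  bH : ∀ i, b i ∈ H
  uH : u ∈ Hᗮ
  dec : ∀ x : E n, ∃ c : ℝ, x = H.starProjection x + c • u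

variable {n k : ℕ} {H : Submodule ℝ (E n)} {a u : E n} {b : Fin k → E n}

theorem star_Phi (h : FrH H a u b) (l : ℝ) (y : Y k) :
    H.starProjection (Phi a u b l y) = Phi a u b 0 y := by
  rw [Phi_apply, Phi_apply, map_add, map_add, map_smul, map_smul, map_sum,
    Submodule.starProjection_eq_self_iff.2 h.aH]
  have h1 : H.starProjection u = 0 := (Submodule.starProjection_apply_eq_zero_iff H).2 h.uH
  have h2 : ∀ i, H.starProjection (y.2 i • b i) = y.2 i • b i := fun i =>
    Submodule.starProjection_eq_self_iff.2 (H.smul_mem _ (h.bH i))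
  simp only [h1, h2]
  simp

theorem refl_Phi (h : FrH H a u b) (l : ℝ) (y : Y k) :
    H.reflection (Phi a u b l y) = Phi a u b l ((y.1.1, -y.1.2), y.2) := by
  rw [Phi_apply, Phi_apply, map_add, map_add, map_smul, map_smul, map_sum,
    Submodule.reflection_mem_subspace_eq_self h.aH,
    Submodule.reflection_mem_subspace_orthogonalComplement_eq_neg h.uH]
  have h2 : ∀ i, H.reflection (y.2 i • b i) = y.2 i • b i := fun i =>
    Submodule.reflection_mem_subspace_eq_self (H.smul_mem _ (h.bH i))
  simp only [h2]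
  simp

theorem Phi_injective (h : Fr a u b) {l : ℝ} (hl : l ≠ 0) : Function.Injective (Phi a u b l) := by
  rw [← LinearMap.ker_eq_bot, LinearMap.ker_eq_bot']
  intro y hy
  rw [Phi_apply] at hy
  have huu : inner ℝ u u = 1 := by rw [real_inner_self_eq_norm_sq, h.un]; norm_num
  have haa : inner ℝ a a = ‖a‖ ^ 2 := real_inner_self_eq_norm_sq a
  have ha : ‖a‖ ≠ 0 := norm_ne_zero_iff.2 h.a0
  have hau : inner ℝ a u = 0 := by rw [real_inner_comm]; exact h.ua
  have hbu : ∀ i, inner ℝ (b i) u = 0 := fun i => by rw [real_inner_comm]; exact h.ub i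
  have hba : ∀ i, inner ℝ (b i) a = 0 := fun i => by rw [real_inner_comm]; exact h.ab i
  have hbb := orthonormal_iff_ite.1 h.bb
  have h1 : l * y.1.2 = 0 := by
    have := congrArg (fun w => inner ℝ u w) hy
    simp only [inner_add_right, inner_smul_right, inner_sum, h.ua, h.ub, huu, inner_zero_right]
      at this
    simpa using this
  have h2 : y.1.1 * ‖a‖ ^ 2 = 0 := by
    have := congrArg (fun w => inner ℝ a w) hy
    simp only [inner_add_right, inner_smul_right, inner_sum, hau, h.ab, haa, inner_zero_right]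
      at this
    simpa using this
  have h3 : ∀ i, y.2 i = 0 := by
    intro i
    have := congrArg (fun w => inner ℝ (b i) w) hy
    simp only [inner_add_right, inner_smul_right, inner_sum, hbu, hba, hbb, inner_zero_right]
      at this
    simpa using this
  refine Prod.ext (Prod.ext ?_ ?_) (funext h3)
  · exact (mul_eq_zero.1 h2).resolve_right (by positivity)
  · exact (mul_eq_zero.1 h1).resolve_left hl

/-- The symmetrization in coordinates. -/
def dia (D : Set (E n) → Set (E n)) (a u : E n) (b : Fin k → E n) (l : ℝ) (X : Set (Y k)) :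
    Set (Y k) := (Phi a u b l) ⁻¹' (D (Phi a u b l '' X))

/-- Nonempty, compact, convex sets. -/
structure NC (X : Set (Y k)) : Prop where
  compact : IsCompact X
  convex : Convex ℝ X
  nonempty : X.Nonempty

theorem NC.image {X : Set (Y k)} (hX : NC X) (a u : E n) (b : Fin k → E n) (l : ℝ) :
    Phi a u b l '' X ∈ nonemptyCompactConvex n :=
  ⟨hX.compact.image (Phi_continuous a u b l), hX.convex.linear_image _, hX.nonempty.image _⟩

theorem Sy.seg {M : Set (Y k)} (hM : Sy M) {y : Y k} (hy : y ∈ M) {s : ℝ} (hs : |s| ≤ |y.1.2|) :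
    ((y.1.1, s), y.2) ∈ M := by
  set m := |y.1.2| with hm
  have hy1 : ((y.1.1, m), y.2) ∈ M := by
    rcases abs_cases y.1.2 with h | h
    · rw [hm, h.1]; exact hy
    · rw [hm, h.1]; exact hM.symm _ hy
  have hy2 : ((y.1.1, -m), y.2) ∈ M := hM.symm _ hy1
  rcases eq_or_ne m 0 with h0 | h0
  · have : s = 0 := by
      rw [h0] at hs
      exact abs_eq_zero.1 (le_antisymm hs (abs_nonneg _))
    rw [this]
    rw [h0] at hy1
    exact hy1
  · have hm0 : 0 < m := lt_of_le_of_ne (abs_nonneg _) (Ne.symm h0)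
    rw [abs_le] at hs
    have := hM.convex hy2 hy1 (a := (m - s) / (2 * m)) (b := (m + s) / (2 * m))
      (div_nonneg (by linarith) (by linarith)) (div_nonneg (by linarith) (by linarith))
      (by field_simp; ring)
    convert this using 1
    refine Prod.ext (Prod.ext ?_ ?_) ?_
    · simp
      field_simp
      ring
    · simp
      field_simp
      ring
    · funext i
      simp
      field_simp
      ring

variable {D : Set (E n) → Set (E n)}

theorem dia_image (h : FrH H a u b) (hD : Ext2 H (k + 1) D) {l : ℝ} (hl : 0 < l) {X : Set (Y k)}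
    (hX : NC X) : Phi a u b l '' dia D a u b l X = D (Phi a u b l '' X) := by
  refine Set.Subset.antisymm (Set.image_preimage_subset _ _) ?_
  intro x hx
  obtain ⟨_, ⟨y, hy, rfl⟩, hyx⟩ := hD.proj _ (hX.image a u b l) x hx
  obtain ⟨c, hc⟩ := h.dec x
  rw [star_Phi h] at hyx
  refine ⟨((y.1.1, c / l), y.2), ?_, ?_⟩
  · change Phi a u b l ((y.1.1, c / l), y.2) ∈ D (Phi a u b l '' X)
    have : Phi a u b l ((y.1.1, c / l), y.2) = x := by
      rw [hc, ← hyx, Phi_apply, Phi_apply]
      simp only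
      rw [mul_div_cancel₀ _ hl.ne']
      simp only [zero_mul, zero_smul, add_zero]
      abel
    rw [this]
    exact hx
  · rw [hc, ← hyx, Phi_apply, Phi_apply]
    simp only
    rw [mul_div_cancel₀ _ hl.ne']
    simp only [zero_mul, zero_smul, add_zero]
    abel

theorem dia_sy (h : FrH H a u b) (hD : Ext2 H (k + 1) D) {l : ℝ} (hl : 0 < l) {X : Set (Y k)}
    (hX : NC X) : Sy (dia D a u b l X) where
  compact := by
    have h1 : Topology.IsClosedEmbedding (Phi a u b l) :=
      LinearMap.isClosedEmbedding_of_injective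
        (LinearMap.ker_eq_bot.2 (Phi_injective h.toFr hl.ne'))
    exact h1.isCompact_preimage (hD.compact _ (hX.image a u b l))
  convex := (hD.convex _ (hX.image a u b l)).linear_preimage _
  symm := by
    intro y hy
    change Phi a u b l ((y.1.1, -y.1.2), y.2) ∈ D (Phi a u b l '' X)
    rw [← refl_Phi h]
    exact hD.symm _ (hX.image a u b l) _ hy

theorem dia_mono (hD : Ext2 H (k + 1) D) (l : ℝ) {X X' : Set (Y k)}
    (hX : NC X) (hX' : NC X') (hXX : X ⊆ X') : dia D a u b l X ⊆ dia D a u b l X' :=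
  Set.preimage_mono (hD.mono _ (hX.image a u b l) _ (hX'.image a u b l) (Set.image_mono hXX))

theorem dia_V (h : FrH H a u b) (hD : Ext2 H (k + 1) D) {l : ℝ} (hl : 0 < l) {X : Set (Y k)}
    (hX : NC X) : V n (k + 1) (Phi a u b l '' dia D a u b l X) = V n (k + 1) (Phi a u b l '' X) := by
  rw [dia_image h hD hl hX, hD.pres _ (hX.image a u b l)]

theorem dia_hor (h : FrH H a u b) (hD : Ext2 H (k + 1) D) {l : ℝ} (_hl : 0 < l) {X : Set (Y k)}
    (hX : NC X) {y : Y k} (hy : y ∈ dia D a u b l X) : ∃ s : ℝ, ((y.1.1, s), y.2) ∈ X := by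
  obtain ⟨_, ⟨z, hz, rfl⟩, hzy⟩ := hD.proj _ (hX.image a u b l) _ hy
  rw [star_Phi h, star_Phi h] at hzy
  have h1 : Phi a u b 1 ((z.1.1, 0), z.2) = Phi a u b 1 ((y.1.1, 0), y.2) := by
    rw [Phi_apply, Phi_apply] at hzy ⊢
    simpa using hzy
  have h2 := Phi_injective h.toFr one_ne_zero h1
  refine ⟨z.1.2, ?_⟩
  have h3 : z.1.1 = y.1.1 := (Prod.ext_iff.1 (Prod.ext_iff.1 h2).1).1
  have h4 : z.2 = y.2 := (Prod.ext_iff.1 h2).2
  rw [← h3, ← h4]
  exact hz

end Pool.Agent.W570.Sym
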