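import Pool.Agent.W570.Sym.Main

/-!
Frames, the choice of the scale, and the extension.
-/

namespace Pool.Agent.W570.Sym

open MeasureTheory Module Set Filter Topology
open scoped ENNReal
open Pool.Agent.Results.MP_b62b68_gt.NoSymmetrization

theorem exists_ext2 {n j : ℕ} (hj : j ≤ n) (H : Submodule ℝ (E n)) (D : Set (E n) → Set (E n))
    (h1 : ∀ K ∈ convexBodies n, IsCompact (D K) ∧ Convex ℝ (D K) ∧ HSymm H (D K))
    (h2 : ∀ K ∈ convexBodies n, ∀ L ∈ convexBodies n, K ⊆ L → D K ⊆ D L)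
    (h3 : ∀ K ∈ convexBodies n, V n j (D K) = V n j K)
    (h4 : ∀ K ∈ convexBodies n, ∀ x ∈ D K, ∃ y ∈ K, H.starProjection y = H.starProjection x) :
    ∃ D', Ext2 H j D' := by
  refine ⟨fun K => ⋂ m, D (thick m K), ?_, ?_, ?_, ?_, ?_, ?_⟩
  · intro K hK
    exact (h1 _ (thick_body 0 hK)).1.of_isClosed_subset
      (isClosed_iInter fun m => (h1 _ (thick_body m hK)).1.isClosed) (Set.iInter_subset _ 0)
  · intro K hK
    exact convex_iInter fun m => (h1 _ (thick_body m hK)).2.1
  · intro K hK x hx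
    rw [Set.mem_iInter] at hx ⊢
    intro m
    exact (hsymm_iff H _).1 (h1 _ (thick_body m hK)).2.2 x (hx m)
  · intro K hK L hL hKL
    refine Set.iInter_mono fun m => ?_
    exact h2 _ (thick_body m hK) _ (thick_body m hL) (Metric.cthickening_subset_of_subset _ hKL)
  · intro K hK
    have h5 : Antitone (fun m => D (thick m K)) := by
      intro a b hab
      exact h2 _ (thick_body b hK) _ (thick_body a hK) (thick_anti K hab)
    rw [V_iInter hj (fun m => (h1 _ (thick_body m hK)).1) h5]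
    have h6 : V n j K = ⨅ m, V n j (thick m K) := by
      rw [← V_iInter hj (fun m => (thick_body m hK).1) (thick_anti K), thick_iInter hK.1.isClosed]
    rw [h6]
    exact iInf_congr fun m => h3 _ (thick_body m hK)
  · intro K hK x hx
    rw [Set.mem_iInter] at hx
    have h7 : (⋂ m, (thick m K ∩ (H.starProjection) ⁻¹' {H.starProjection x})).Nonempty := by
      refine IsCompact.nonempty_iInter_of_sequence_nonempty_isCompact_isClosed _ ?_ ?_ ?_ ?_
      · intro m
        exact Set.inter_subset_inter_left _ (thick_anti K (Nat.le_succ m))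
      · intro m
        obtain ⟨y, hy, hyx⟩ := h4 _ (thick_body m hK) x (hx m)
        exact ⟨y, hy, hyx⟩
      · exact (thick_body 0 hK).1.inter_right
          (isClosed_singleton.preimage H.starProjection.continuous)
      · intro m
        exact (thick_body m hK).1.isClosed.inter
          (isClosed_singleton.preimage H.starProjection.continuous)
    obtain ⟨y, hy⟩ := h7
    rw [Set.mem_iInter] at hy
    refine ⟨y, ?_, (hy 0).2⟩
    rw [← thick_iInter hK.1.isClosed]
    exact Set.mem_iInter.2 fun m => (hy m).1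

/-- A frame with a unit vector in the first position. -/
theorem exists_frH {n k : ℕ} (H : Submodule ℝ (E n)) (hH : finrank ℝ H + 1 = n)
    (hk : k + 2 ≤ finrank ℝ H) :
    ∃ (a u : E n) (b : Fin (k + 1) → E n), FrH H a u b := by
  have hperp : finrank ℝ Hᗮ = 1 := by
    have h1 := H.finrank_add_finrank_orthogonal
    rw [finrank_euclideanSpace_fin] at h1
    omega
  let eu := (stdOrthonormalBasis ℝ Hᗮ).reindex (finCongr hperp)
  let e := stdOrthonormalBasis ℝ H
  let a : E n := (e ⟨0, by omega⟩ : H)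
  let b : Fin (k + 1) → E n := fun i => (e ⟨i + 1, by omega⟩ : H)
  let u : E n := (eu 0 : Hᗮ)
  have hex := orthonormal_iff_ite.1 e.orthonormal
  refine ⟨a, u, b, ⟨?_, ?_, ?_, ?_, ?_, ?_⟩, ?_, ?_, ?_, ?_⟩
  · have := eu.orthonormal.1 0
    exact this
  · exact Submodule.inner_left_of_mem_orthogonal (e ⟨0, by omega⟩).2 (eu 0).2
  · intro i
    exact Submodule.inner_left_of_mem_orthogonal (e ⟨i + 1, by omega⟩).2 (eu 0).2
  · intro i
    have := hex ⟨0, by omega⟩ ⟨i + 1, by omega⟩
    rw [if_neg (by simp)] at this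
    exact this
  · rw [orthonormal_iff_ite]
    intro i l
    have := hex ⟨i + 1, by omega⟩ ⟨l + 1, by omega⟩
    refine (Eq.trans ?_ this).trans ?_
    · rfl
    · congr 1
      simp [Fin.ext_iff]
  · intro h0
    have h1 := e.orthonormal.1 ⟨0, by omega⟩
    have h2 : ‖a‖ = 1 := h1
    rw [h0, norm_zero] at h2
    exact zero_ne_one h2
  · exact (e ⟨0, by omega⟩).2
  · intro i
    exact (e ⟨i + 1, by omega⟩).2
  · exact (eu 0).2
  · intro x
    have h1 : x - H.starProjection x ∈ Hᗮ := Submodule.sub_starProjection_mem_orthogonal x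
    refine ⟨eu.repr ⟨_, h1⟩ 0, ?_⟩
    have h2 := eu.sum_repr ⟨_, h1⟩
    rw [Fin.sum_univ_one] at h2
    have h3 := congrArg (fun z : Hᗮ => (z : E n)) h2
    simp only [Submodule.coe_smul] at h3
    rw [show u = (eu 0 : E n) from rfl, h3]
    abel

theorem FrH.scale {n k : ℕ} {H : Submodule ℝ (E n)} {a u : E n} {b : Fin k → E n}
    (h : FrH H a u b) {r : ℝ} (hr : r ≠ 0) : FrH H (r • a) u b where
  un := h.un
  ua := by rw [inner_smul_right, h.ua, mul_zero]
  ub := h.ub
  ab := by
    intro i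
    rw [inner_smul_left, h.ab, mul_zero]
  bb := h.bb
  a0 := smul_ne_zero hr h.a0
  aH := H.smul_mem _ h.aH
  bH := h.bH
  uH := h.uH
  dec := h.dec

theorem exists_scale {n k : ℕ} (hj : k + 1 ≤ n) {a u : E n} {b : Fin k → E n}
    (h : Fr a u b) : ∃ r : ℝ, r ≠ 0 ∧ 2 * V n (k + 1) (Phi (r • a) u b 1 '' Bo k) <
      3 * V n (k + 1) (Th u b '' (Icc (0 : ℝ) 1 ×ˢ cu k)) := by
  let K : ℕ → Set (E n) := fun m => Phi ((1 / ((m : ℝ) + 1)) • a) u b 1 '' Bo k
  have hKc : ∀ m, IsCompact (K m) := fun m =>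
    ((isCompact_Icc.prod isCompact_Icc).prod isCompact_Icc).image (Phi_continuous _ u b 1)
  have hanti : Antitone K := by
    intro m m' hmm
    rintro _ ⟨⟨⟨x, s⟩, q⟩, ⟨⟨hx, hs⟩, hq⟩, rfl⟩
    simp only at hx hs hq
    have h1 : (0 : ℝ) < (m : ℝ) + 1 := by positivity
    have h2 : (0 : ℝ) < (m' : ℝ) + 1 := by positivity
    have h3 : (m : ℝ) ≤ m' := by exact_mod_cast hmm
    refine ⟨((x * ((m + 1) / (m' + 1)), s), q), ⟨⟨⟨?_, ?_⟩, hs⟩, hq⟩, ?_⟩
    · exact mul_nonneg hx.1 (by positivity)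
    · refine mul_le_one₀ hx.2 (by positivity) ?_
      rw [div_le_one h2]
      linarith
    · simp only [Phi_apply, smul_smul]
      congr 3
      field_simp
  have hinter : (⋂ m, K m) = Th u b '' (Icc (0 : ℝ) 1 ×ˢ cu k) := by
    refine Set.Subset.antisymm ?_ ?_
    · intro z hz
      rw [Set.mem_iInter] at hz
      obtain ⟨⟨⟨x, s⟩, q⟩, ⟨⟨hx, hs⟩, hq⟩, hzx⟩ := hz 0
      simp only at hx hs hq
      have hx0 : x = 0 := by
        refine le_antisymm ?_ hx.1
        refine ge_of_tendsto' tendsto_one_div_add_atTop_nhds_zero_nat fun m => ?_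
        obtain ⟨⟨⟨x', s'⟩, q'⟩, ⟨⟨hx', hs'⟩, hq'⟩, hzx'⟩ := hz m
        simp only at hx'
        have h1 : Phi a u b 1 ((x, s), q) = Phi a u b 1 ((x' * (1 / ((m : ℝ) + 1)), s'), q') := by
          have e1 : Phi a u b 1 ((x, s), q) = z := by
            rw [← hzx]
            simp [Phi_apply]
          have e2 : Phi a u b 1 ((x' * (1 / ((m : ℝ) + 1)), s'), q') = z := by
            rw [← hzx']
            simp [Phi_apply, smul_smul]
          rw [e1, e2]
        have h2 := Phi_injective h one_ne_zero h1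
        have h3 : x = x' * (1 / ((m : ℝ) + 1)) := (Prod.ext_iff.1 (Prod.ext_iff.1 h2).1).1
        rw [h3]
        exact mul_le_of_le_one_left (by positivity) hx'.2
      refine ⟨(s, q), ⟨hs, hq⟩, ?_⟩
      rw [← hzx, Phi_apply, Th_apply, hx0]
      simp
    · rintro _ ⟨⟨s, q⟩, ⟨hs, hq⟩, rfl⟩
      rw [Set.mem_iInter]
      intro m
      refine ⟨((0, s), q), ⟨⟨⟨le_rfl, zero_le_one⟩, hs⟩, hq⟩, ?_⟩
      rw [Phi_apply, Th_apply]
      simp
  obtain ⟨c, hc0, hct, hc⟩ := Th_V hj h.un h.ub h.bb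
  set κ := V n (k + 1) (Th u b '' (Icc (0 : ℝ) 1 ×ˢ cu k)) with hκ
  have hκc : κ = c := by
    rw [hκ, hc, Measure.volume_eq_prod, Measure.prod_prod, Real.volume_Icc, Real.volume_Icc_pi]
    simp
  have hκ0 : κ ≠ 0 := by rw [hκc]; exact hc0
  have hκt : κ ≠ ∞ := by rw [hκc]; exact hct
  have hinf : ⨅ m, V n (k + 1) (K m) = κ := by
    rw [← V_iInter hj hKc hanti, hinter]
  have hlt : ⨅ m, V n (k + 1) (K m) < κ + κ / 2 := by
    rw [hinf]
    exact ENNReal.lt_add_right hκt (by
      simp only [ne_eq, ENNReal.div_eq_zero_iff, hκ0, ENNReal.ofNat_ne_top, or_self,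
        not_false_eq_true])
  obtain ⟨m, hm⟩ := iInf_lt_iff.1 hlt
  refine ⟨1 / ((m : ℝ) + 1), by positivity, ?_⟩
  have h2 : 2 * V n (k + 1) (K m) < 2 * (κ + κ / 2) :=
    ENNReal.mul_lt_mul_right (by norm_num) (by norm_num) hm
  refine h2.trans_le (le_of_eq ?_)
  rw [mul_add, ENNReal.mul_div_cancel (by norm_num) (by norm_num)]
  ring

/-- The contradiction. -/
theorem no_ext2 {n k : ℕ} (hj : k + 1 + 1 ≤ n) (H : Submodule ℝ (E n))
    (hH : finrank ℝ H + 1 = n) (hk : k + 2 ≤ finrank ℝ H) {D : Set (E n) → Set (E n)}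
    (hD : Ext2 H (k + 1 + 1) D) : False := by
  obtain ⟨a, u, b, h⟩ := exists_frH H hH hk
  obtain ⟨r, hr, hβ⟩ := exists_scale hj h.toFr
  exact contra hj (h.scale hr) hD hβ

/-- The `H`-symmetric spherical cylinder. -/
def cyl {n : ℕ} (H : Submodule ℝ (E n)) (c : E n) (r t : ℝ) : Set (E n) :=
  {x | ‖H.starProjection x - c‖ ≤ r ∧ ‖x - H.starProjection x‖ ≤ t}

theorem cyl_body {n : ℕ} (H : Submodule ℝ (E n)) {c : E n} (hc : c ∈ H) {r t : ℝ} (hr : 0 < r)
    (ht : 0 < t) : cyl H c r t ∈ convexBodies n := by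
  have c1 : Continuous (fun x => ‖H.starProjection x - c‖) :=
    (H.starProjection.continuous.sub continuous_const).norm
  have c2 : Continuous (fun x => ‖x - H.starProjection x‖) :=
    (continuous_id.sub H.starProjection.continuous).norm
  refine ⟨?_, ?_, ?_⟩
  · refine Metric.isCompact_of_isClosed_isBounded
      (IsClosed.inter (isClosed_le c1 continuous_const) (isClosed_le c2 continuous_const)) ?_
    refine (Metric.isBounded_closedBall (x := c) (r := r + t)).subset ?_
    rintro x ⟨h1, h2⟩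
    rw [mem_closedBall_iff_norm]
    calc ‖x - c‖ = ‖(H.starProjection x - c) + (x - H.starProjection x)‖ := by congr 1; abel
      _ ≤ _ := norm_add_le _ _
      _ ≤ r + t := add_le_add h1 h2
  · rintro x ⟨h1, h2⟩ y ⟨g1, g2⟩ s s' hs hs' hss
    refine ⟨?_, ?_⟩
    · have : H.starProjection (s • x + s' • y) - c =
          s • (H.starProjection x - c) + s' • (H.starProjection y - c) := by
        rw [map_add, map_smul, map_smul, smul_sub, smul_sub]
        have : c = s • c + s' • c := by rw [← add_smul, hss, one_smul]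
        nth_rewrite 1 [this]
        abel
      rw [this]
      calc _ ≤ ‖s • (H.starProjection x - c)‖ + ‖s' • (H.starProjection y - c)‖ :=
            norm_add_le _ _
        _ = s * ‖H.starProjection x - c‖ + s' * ‖H.starProjection y - c‖ := by
            rw [norm_smul, norm_smul, Real.norm_of_nonneg hs, Real.norm_of_nonneg hs']
        _ ≤ s * r + s' * r := by gcongr
        _ = r := by rw [← add_mul, hss, one_mul]
    · have : (s • x + s' • y) - H.starProjection (s • x + s' • y) =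
          s • (x - H.starProjection x) + s' • (y - H.starProjection y) := by
        rw [map_add, map_smul, map_smul, smul_sub, smul_sub]
        abel
      rw [this]
      calc _ ≤ ‖s • (x - H.starProjection x)‖ + ‖s' • (y - H.starProjection y)‖ :=
            norm_add_le _ _
        _ = s * ‖x - H.starProjection x‖ + s' * ‖y - H.starProjection y‖ := by
            rw [norm_smul, norm_smul, Real.norm_of_nonneg hs, Real.norm_of_nonneg hs']
        _ ≤ s * t + s' * t := by gcongr
        _ = t := by rw [← add_mul, hss, one_mul]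
  · refine ⟨c, ?_⟩
    rw [mem_interior]
    refine ⟨{x | ‖H.starProjection x - c‖ < r} ∩ {x | ‖x - H.starProjection x‖ < t}, ?_, ?_, ?_⟩
    · rintro x ⟨h1, h2⟩
      exact ⟨le_of_lt h1, le_of_lt h2⟩
    · exact (isOpen_lt c1 continuous_const).inter (isOpen_lt c2 continuous_const)
    · have : H.starProjection c = c := Submodule.starProjection_eq_self_iff.2 hc
      constructor
      · simp only [Set.mem_ofPred_eq, this, sub_self, norm_zero]
        exact hr
      · simp only [Set.mem_ofPred_eq, this, sub_self, norm_zero]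
        exact ht

/-- Invariance on cylinders bounds the projections. -/
theorem proj_of_cyl {n : ℕ} (H : Submodule ℝ (E n)) (D : Set (E n) → Set (E n))
    (h2 : ∀ K ∈ convexBodies n, ∀ L ∈ convexBodies n, K ⊆ L → D K ⊆ D L)
    (h5 : ∀ c ∈ H, ∀ r t : ℝ, 0 < r → 0 < t → D (cyl H c r t) = cyl H c r t)
    (K : Set (E n)) (hK : K ∈ convexBodies n) (x : E n) (hx : x ∈ D K) :
    ∃ y ∈ K, H.starProjection y = H.starProjection x := by
  by_contra hcon
  push Not at hcon
  obtain ⟨hKc, hKv, hKi⟩ := hK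
  have hKne : K.Nonempty := hKi.mono interior_subset
  set P := H.starProjection with hP
  have hK'c : IsCompact (P '' K) := hKc.image P.continuous
  have hK'v : Convex ℝ (P '' K) := hKv.linear_image P.toLinearMap
  obtain ⟨z, hzK, hz⟩ := exists_norm_eq_iInf_of_complete_convex (hKne.image P)
    hK'c.isComplete hK'v (P x)
  have hz' := (norm_eq_iInf_iff_real_inner_le_zero hK'v hzK).1 hz
  set d := P x - z with hd
  have hPP : ∀ w ∈ P '' K, w ∈ H := by
    rintro _ ⟨w, -, rfl⟩
    exact Submodule.starProjection_apply_mem H w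
  have hzH : z ∈ H := hPP z hzK
  have hdH : d ∈ H := H.sub_mem (Submodule.starProjection_apply_mem H x) hzH
  have hd0 : d ≠ 0 := by
    intro h0
    obtain ⟨y, hy, hyz⟩ := hzK
    refine hcon y hy ?_
    rw [hyz]
    exact (sub_eq_zero.1 h0).symm
  have hdn : 0 < ‖d‖ := norm_pos_iff.2 hd0
  obtain ⟨M, hM0, hM⟩ : ∃ M : ℝ, 0 < M ∧ ∀ w ∈ P '' K, ‖w - z‖ ≤ M := by
    obtain ⟨M, hM⟩ := hK'c.isBounded.subset_closedBall z
    refine ⟨max M 1, by positivity, fun w hw => ?_⟩
    have := hM hw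
    rw [mem_closedBall_iff_norm] at this
    exact this.trans (le_max_left _ _)
  obtain ⟨t, ht0, ht⟩ : ∃ t : ℝ, 0 < t ∧ ∀ w ∈ K, ‖w - P w‖ ≤ t := by
    obtain ⟨t, ht⟩ := (hKc.image (continuous_id.sub P.continuous)).isBounded.subset_closedBall 0
    refine ⟨max t 1, by positivity, fun w hw => ?_⟩
    have := ht ⟨w, hw, rfl⟩
    rw [mem_closedBall_zero_iff] at this
    exact this.trans (le_max_left _ _)
  set ρ : ℝ := M ^ 2 / ‖d‖ ^ 2 with hρ
  have hρd : ρ * ‖d‖ ^ 2 = M ^ 2 := by
    rw [hρ]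
    field_simp
  have hρ0 : 0 < ρ := by positivity
  set c := z - ρ • d with hc
  have hcH : c ∈ H := H.sub_mem hzH (H.smul_mem _ hdH)
  set r : ℝ := √(M ^ 2 + ρ ^ 2 * ‖d‖ ^ 2) with hr
  have hr0 : 0 < r := by positivity
  have hsub : K ⊆ cyl H c r t := by
    intro w hw
    refine ⟨?_, ht w hw⟩
    have h6 := hz' (P w) ⟨w, hw, rfl⟩
    have h7 := hM (P w) ⟨w, hw, rfl⟩
    rw [hr]
    refine Real.le_sqrt_of_sq_le ?_
    have h8 : P w - c = (P w - z) + ρ • d := by
      rw [hc]
      abel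
    rw [h8, norm_add_sq_real, norm_smul, inner_smul_right, Real.norm_of_nonneg hρ0.le]
    have h9 : inner ℝ (P w - z) d ≤ 0 := by
      rw [real_inner_comm]
      exact h6
    have h10 : ‖P w - z‖ ^ 2 ≤ M ^ 2 := by gcongr
    nlinarith [mul_nonneg hρ0.le (neg_nonneg.2 h9)]
  have hcb := cyl_body H hcH hr0 ht0
  have hx2 : x ∈ cyl H c r t := by
    rw [← h5 c hcH r t hr0 ht0]
    exact h2 K ⟨hKc, hKv, hKi⟩ _ hcb hsub hx
  have h11 : ‖P x - c‖ ≤ r := hx2.1
  have h12 : P x - c = (1 + ρ) • d := by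
    rw [hc, hd, add_smul, one_smul]
    abel
  rw [h12, norm_smul, Real.norm_of_nonneg (by positivity), hr] at h11
  have h13 := Real.sq_sqrt (show 0 ≤ M ^ 2 + ρ ^ 2 * ‖d‖ ^ 2 by positivity)
  have h14 : ((1 + ρ) * ‖d‖) ^ 2 ≤ M ^ 2 + ρ ^ 2 * ‖d‖ ^ 2 := by
    rw [← h13]
    gcongr
  nlinarith [sq_nonneg ‖d‖]

end Pool.Agent.W570.Sym
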