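import Pool.Agent.W570.Sym.Strict

/-!
A good rotation for the strictness argument.
-/

namespace Pool.Agent.W570.Sym

open MeasureTheory Module Set Filter Topology
open scoped ENNReal
open Pool.Agent.Results.MP_b62b68_gt.NoSymmetrization

theorem exists_cols {n j : ℕ} (hj : j ≤ n) {f : Fin j → E n} (hf : Orthonormal ℝ f) :
    ∃ g : O n, ∀ k, col g (Fin.castLE hj k) = f k := by
  let v : Fin n → E n := fun k => if h : (k : ℕ) < j then f ⟨k, h⟩ else 0
  have hv : Orthonormal ℝ (({k : Fin n | (k : ℕ) < j} : Set (Fin n)).domRestrict v) := by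
    have h4 : (({k : Fin n | (k : ℕ) < j} : Set (Fin n)).domRestrict v) =
        f ∘ (fun k : ({k : Fin n | (k : ℕ) < j} : Set (Fin n)) => ⟨(k.1 : ℕ), k.2⟩) := by
      ext1 k
      have hk : (k.1 : ℕ) < j := k.2
      simp [v, hk]
    rw [h4]
    refine hf.comp _ ?_
    intro x y hxy
    simp only [Fin.mk.injEq] at hxy
    exact Subtype.ext (Fin.ext hxy)
  obtain ⟨b, hb⟩ := hv.exists_orthonormalBasis_extension_of_card_eq (by simp)
  let g : O n := ⟨(EuclideanSpace.basisFun (Fin n) ℝ).toBasis.toMatrix b,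
    OrthonormalBasis.toMatrix_orthonormalBasis_mem_unitary _ _⟩
  have hg : ∀ k, col g k = b k := by
    intro k
    ext i
    simp [col, g, Basis.toMatrix_apply]
  refine ⟨g, fun k => ?_⟩
  have hk : ((Fin.castLE hj k : Fin n) : ℕ) < j := k.2
  rw [hg, hb _ hk]
  simp [v]

/-- A frame. -/
structure Fr {n k : ℕ} (a u : E n) (b : Fin k → E n) : Prop where
  un : ‖u‖ = 1
  ua : inner ℝ u a = 0
  ub : ∀ i, inner ℝ u (b i) = 0
  ab : ∀ i, inner ℝ a (b i) = 0
  bb : Orthonormal ℝ b
  a0 : a ≠ 0

theorem exists_g0 {n k : ℕ} (hj : k + 1 + 1 ≤ n) {a u : E n} {b : Fin (k + 1) → E n}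
    (h : Fr a u b) : ∃ g : O n, A n (k + 1 + 1) hj g u ≠ 0 ∧
      Function.Surjective (Bg hj a u b g) ∧
      ∀ y z, Bg hj a u b g y = Bg hj a u b g z → y.1.1 = z.1.1 ∧ y.1.2 = z.1.2 := by
  have ha : ‖a‖ ≠ 0 := norm_ne_zero_iff.2 h.a0
  let f : Fin (k + 1 + 1) → E n := Fin.cons u (Fin.cons (‖a‖⁻¹ • a) (fun i : Fin k => b i.succ))
  have f0 : f 0 = u := rfl
  have f1 : f 1 = ‖a‖⁻¹ • a := rfl
  have f2 : ∀ i : Fin k, f i.succ.succ = b i.succ := fun i => rfl
  have huu : inner ℝ u u = 1 := by rw [real_inner_self_eq_norm_sq, h.un]; norm_num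
  have haa : inner ℝ a a = ‖a‖ ^ 2 := real_inner_self_eq_norm_sq a
  have hau : inner ℝ a u = 0 := by rw [real_inner_comm]; exact h.ua
  have hbu : ∀ i, inner ℝ (b i) u = 0 := fun i => by rw [real_inner_comm]; exact h.ub i
  have hba : ∀ i, inner ℝ (b i) a = 0 := fun i => by rw [real_inner_comm]; exact h.ab i
  have hbb := orthonormal_iff_ite.1 h.bb
  have hf : Orthonormal ℝ f := by
    rw [orthonormal_iff_ite]
    intro i l
    refine Fin.cases ?_ (fun i => ?_) i
    · refine Fin.cases ?_ (fun l => ?_) l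
      · rw [f0, huu]; simp
      · refine Fin.cases ?_ (fun l => ?_) l
        · change inner ℝ (f 0) (f 1) = _
          rw [f0, f1, inner_smul_right, h.ua]
          simp
        · rw [f0, f2, h.ub]
          rw [if_neg (Fin.succ_ne_zero _).symm]
    · refine Fin.cases ?_ (fun l => ?_) l
      · refine Fin.cases ?_ (fun i => ?_) i
        · change inner ℝ (f 1) (f 0) = _
          rw [f0, f1, inner_smul_left, hau]
          simp
        · rw [f0, f2, hbu]
          rw [if_neg (Fin.succ_ne_zero _)]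
      · refine Fin.cases ?_ (fun i => ?_) i
        · refine Fin.cases ?_ (fun l => ?_) l
          · change inner ℝ (f 1) (f 1) = _
            rw [f1, inner_smul_left, inner_smul_right, haa]
            simp
            field_simp
          · change inner ℝ (f 1) (f l.succ.succ) = _
            rw [f1, f2, inner_smul_left, h.ab, mul_zero, if_neg]
            intro hc
            exact (Fin.succ_ne_zero l).symm (Fin.succ_injective _ hc)
        · refine Fin.cases ?_ (fun l => ?_) l
          · change inner ℝ (f i.succ.succ) (f 1) = _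
            rw [f1, f2, inner_smul_right, hba, mul_zero, if_neg]
            intro hc
            exact (Fin.succ_ne_zero i) (Fin.succ_injective _ hc)
          · rw [f2, f2, hbb]
            simp
  obtain ⟨g, hg⟩ := exists_cols hj hf
  have hA : ∀ x i, A n (k + 1 + 1) hj g x i = inner ℝ (f i) x := by
    intro x i
    rw [A_apply, hg]
  have hAu : A n (k + 1 + 1) hj g u = EuclideanSpace.single 0 1 := by
    ext i
    rw [hA]
    refine Fin.cases ?_ (fun i => ?_) i
    · rw [f0, huu]; simp
    · refine Fin.cases ?_ (fun i => ?_) i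
      · change inner ℝ (f 1) u = _
        rw [f1, inner_smul_left, hau]
        simp
      · rw [f2, hbu]
        simp
  have hne : A n (k + 1 + 1) hj g u ≠ 0 := by
    rw [hAu]
    intro h0
    have := congrArg (fun w : E (k + 1 + 1) => w 0) h0
    simp at this
  have hnorm : ‖A n (k + 1 + 1) hj g u‖ = 1 := by
    rw [hAu, PiLp.norm_single]; simp
  -- the horizontal part
  have hh : ∀ y : Y (k + 1), hor (A n (k + 1 + 1) hj g a) (fun i => A n (k + 1 + 1) hj g (b i)) y =
      A n (k + 1 + 1) hj g (y.1.1 • a + ∑ i, y.2 i • b i) := by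
    intro y
    unfold hor
    simp only [map_add, map_smul, map_sum]
  have hin : ∀ y : Y (k + 1), inner ℝ (A n (k + 1 + 1) hj g u)
      (hor (A n (k + 1 + 1) hj g a) (fun i => A n (k + 1 + 1) hj g (b i)) y) = 0 := by
    intro y
    rw [hAu, EuclideanSpace.inner_single_left, hh, hA, f0, inner_add_right, inner_smul_right,
      h.ua, inner_sum]
    simp only [inner_smul_right, h.ub]
    simp
  have hB : ∀ y : Y (k + 1), Bg hj a u b g y =
      A n (k + 1 + 1) hj g (y.1.1 • a + ∑ i, y.2 i • b i) + y.1.2 • A n (k + 1 + 1) hj g u := by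
    intro y
    change Bm _ _ _ y = _
    unfold Bm
    rw [hin, hh]
    simp
  have hB0 : ∀ y : Y (k + 1), Bg hj a u b g y 0 = y.1.2 := by
    intro y
    rw [hB, PiLp.add_apply, hA, hAu, f0, inner_add_right, inner_smul_right, h.ua, inner_sum]
    simp only [inner_smul_right, h.ub]
    simp
  have hB1 : ∀ y : Y (k + 1), Bg hj a u b g y 1 = y.1.1 * ‖a‖ := by
    intro y
    rw [hB, PiLp.add_apply, hA, hAu, f1, inner_add_right, inner_smul_right, inner_smul_left,
      inner_smul_left, haa, inner_sum]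
    simp only [inner_smul_right, h.ab]
    simp
    field_simp
    simp
  have hB2 : ∀ (y : Y (k + 1)) (i : Fin k), Bg hj a u b g y i.succ.succ = y.2 i.succ := by
    intro y i
    rw [hB, PiLp.add_apply, hA, hAu, f2, inner_add_right, inner_smul_right, hba, inner_sum]
    simp only [inner_smul_right, hbb]
    simp
  refine ⟨g, hne, ?_, ?_⟩
  · intro w
    refine ⟨((w 1 / ‖a‖, w 0), Fin.cons 0 (fun i : Fin k => w i.succ.succ)), ?_⟩
    ext i
    refine Fin.cases ?_ (fun i => ?_) i
    · rw [hB0]
    · refine Fin.cases ?_ (fun i => ?_) i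
      · change Bg hj a u b g _ 1 = w 1
        rw [hB1]
        simp
        field_simp
      · rw [hB2]
        rfl
  · intro y z hyz
    have h0 : Bg hj a u b g y 0 = Bg hj a u b g z 0 := by rw [hyz]
    have h1 : Bg hj a u b g y 1 = Bg hj a u b g z 1 := by rw [hyz]
    rw [hB0, hB0] at h0
    rw [hB1, hB1] at h1
    exact ⟨mul_right_cancel₀ ha h1, h0⟩

end Pool.Agent.W570.Sym
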