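import Pool.Agent.W570.Sym.Steiner

/-!
The contradiction.
-/

namespace Pool.Agent.W570.Sym

open MeasureTheory Module Set Filter Topology
open scoped ENNReal
open Pool.Agent.Results.MP_b62b68_gt.NoSymmetrization

/-- The vertically symmetric body under the graph of `p / 2`. -/
def Sp (k : ℕ) (p : ℝ → ℝ) : Set (Y k) :=
  {y | y.1.1 ∈ Icc (0 : ℝ) 1 ∧ 2 * |y.1.2| ≤ p y.1.1 ∧ y.2 ∈ cu k}

/-- The properties of the height function. -/
structure Ht (p : ℝ → ℝ) : Prop where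
  aff : ∀ x y s t : ℝ, s + t = 1 → p (s * x + t * y) = s * p x + t * p y
  cont : Continuous p
  nonneg : ∀ x ∈ Icc (0 : ℝ) 1, 0 ≤ p x
  le_one : ∀ x ∈ Icc (0 : ℝ) 1, p x ≤ 1
  half : p (1 / 2) = 1 / 2

theorem Sp_sy (k : ℕ) {p : ℝ → ℝ} (hp : Ht p) : Sy (Sp k p) where
  compact := by
    have h1 : IsCompact ((Icc (0 : ℝ) 1 ×ˢ Icc (-1 : ℝ) 1) ×ˢ cu k) :=
      (isCompact_Icc.prod isCompact_Icc).prod isCompact_Icc
    refine h1.of_isClosed_subset ?_ ?_
    · have c1 : Continuous (fun y : Y k => y.1.1) := by fun_prop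
      have c2 : Continuous (fun y : Y k => 2 * |y.1.2|) := by fun_prop
      exact IsClosed.inter (isClosed_Icc.preimage c1)
        (IsClosed.inter (isClosed_le c2 (hp.cont.comp c1))
            (isClosed_Icc.preimage continuous_snd))
    · rintro y ⟨h0, h1, h3⟩
      have := hp.le_one _ h0
      exact ⟨⟨h0, abs_le.1 (by linarith [abs_nonneg y.1.2])⟩, h3⟩
  convex := by
    rintro y ⟨h0, h1, h3⟩ z ⟨g0, g1, g3⟩ s t hs ht hst
    refine ⟨convex_Icc _ _ h0 g0 hs ht hst, ?_, convex_Icc _ _ h3 g3 hs ht hst⟩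
    simp only [Prod.fst_add, Prod.smul_fst, Prod.snd_add, Prod.smul_snd, smul_eq_mul]
    rw [hp.aff _ _ _ _ hst]
    have h4 : |s * y.1.2 + t * z.1.2| ≤ s * |y.1.2| + t * |z.1.2| := by
      refine (abs_add_le _ _).trans (le_of_eq ?_)
      rw [abs_mul, abs_mul, abs_of_nonneg hs, abs_of_nonneg ht]
    nlinarith
  symm := by
    rintro y ⟨h0, h1, h3⟩
    refine ⟨h0, ?_, h3⟩
    simp only [abs_neg]
    exact h1

theorem Sp_interior (k : ℕ) {p : ℝ → ℝ} (hp : Ht p) : (interior (Sp k p)).Nonempty := by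
  refine ⟨((1 / 2, 0), fun _ => 1 / 2), ?_⟩
  rw [mem_interior]
  refine ⟨{y | 0 < y.1.1} ∩ {y | y.1.1 < 1} ∩ {y | 2 * |y.1.2| < p y.1.1} ∩
    {y | y.2 ∈ Set.univ.pi fun _ => Ioo (0 : ℝ) 1}, ?_, ?_, ?_⟩
  · rintro y ⟨⟨⟨h1, h2⟩, h3⟩, h4⟩
    exact ⟨⟨le_of_lt h1, le_of_lt h2⟩, le_of_lt h3, fun i => (h4 i trivial).1.le,
      fun i => (h4 i trivial).2.le⟩
  · have c1 : Continuous (fun y : Y k => y.1.1) := by fun_prop
    have c2 : Continuous (fun y : Y k => 2 * |y.1.2|) := by fun_prop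
    refine IsOpen.inter (IsOpen.inter (IsOpen.inter (isOpen_lt continuous_const c1)
      (isOpen_lt c1 continuous_const)) (isOpen_lt c2 (hp.cont.comp c1))) ?_
    exact (isOpen_set_pi Set.finite_univ fun _ _ => isOpen_Ioo).preimage continuous_snd
  · refine ⟨⟨⟨?_, ?_⟩, ?_⟩, ?_⟩
    · simp
    · simp only [Set.mem_ofPred_eq]
      norm_num
    · simp only [Set.mem_ofPred_eq]
      rw [hp.half]
      norm_num
    · simp only [Set.mem_ofPred_eq]
      intro i _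
      constructor <;> norm_num

variable {n k : ℕ} {H : Submodule ℝ (E n)} {a u : E n} {b : Fin k → E n}
  {D : Set (E n) → Set (E n)}

theorem Sp_sub (hj : k + 1 ≤ n) (h : FrH H a u b) (hD : Ext2 H (k + 1) D) {l : ℝ}
    (hl : 0 < l) {X : Set (Y k)} (hX : NC X) {p : ℝ → ℝ} (hp : Ht p)
    (hin : ∀ x ∈ Icc (0 : ℝ) 1, ∃ α, ∀ q ∈ cu k, ∀ s ∈ Icc α (α + p x), ((x, s), q) ∈ X) :
    Sp k p ⊆ dia D a u b l X := by
  rintro y ⟨h0, h1, h3⟩
  have hsy := dia_sy h hD hl hX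
  let ε : ℕ → ℝ := fun N => 1 / (N + 1)
  let w : ℕ → Y k := fun N => (((1 - ε N) * y.1.1 + ε N * (1 / 2), (1 - ε N) * y.1.2),
    fun i => (1 - ε N) * y.2 i + ε N * (1 / 2))
  have hε0 : ∀ N, 0 < ε N := fun N => by positivity
  have hε1 : ∀ N, ε N ≤ 1 := fun N => by
    change 1 / ((N : ℝ) + 1) ≤ 1
    rw [div_le_one (by positivity)]
    linarith [(Nat.cast_nonneg N : (0 : ℝ) ≤ N)]
  have hmem : ∀ N, w N ∈ dia D a u b l X := by
    intro N
    have e0 := hε0 N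
    have e1 := hε1 N
    have hx : (w N).1.1 ∈ Icc (0 : ℝ) 1 := by
      change (1 - ε N) * y.1.1 + ε N * (1 / 2) ∈ _
      constructor <;> nlinarith [h0.1, h0.2]
    have hpx : p (w N).1.1 = (1 - ε N) * p y.1.1 + ε N * (1 / 2) := by
      change p ((1 - ε N) * y.1.1 + ε N * (1 / 2)) = _
      rw [hp.aff _ _ _ _ (by ring), hp.half]
    have hpos : 0 < p (w N).1.1 := by
      rw [hpx]
      have := mul_nonneg (sub_nonneg.2 e1) (hp.nonneg _ h0)
      linarith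
    have hq : (w N).2 ∈ cu k := by
      constructor
      · intro i
        change 0 ≤ (1 - ε N) * y.2 i + ε N * (1 / 2)
        have := h3.1 i
        simp only [Pi.zero_apply] at this
        nlinarith
      · intro i
        change (1 - ε N) * y.2 i + ε N * (1 / 2) ≤ 1
        have := h3.2 i
        simp only [Pi.one_apply] at this
        nlinarith
    obtain ⟨α, hα⟩ := hin _ hx
    have := steiner_point hj h hD hl hX hpos hα hq
    refine hsy.seg this ?_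
    change |(1 - ε N) * y.1.2| ≤ |p (w N).1.1 / 2|
    rw [abs_mul, abs_of_nonneg (sub_nonneg.2 e1), abs_of_pos (half_pos hpos), hpx]
    have h6 := mul_le_mul_of_nonneg_left h1 (sub_nonneg.2 e1)
    linarith
  have htend : Tendsto w atTop (𝓝 y) := by
    have hε : Tendsto ε atTop (𝓝 0) := tendsto_one_div_add_atTop_nhds_zero_nat
    have h4 : ∀ c d : ℝ, Tendsto (fun N => (1 - ε N) * c + ε N * d) atTop (𝓝 c) := by
      intro c d
      have : Tendsto (fun N => (1 - ε N) * c + ε N * d) atTop (𝓝 ((1 - 0) * c + 0 * d)) :=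
        ((tendsto_const_nhds.sub hε).mul_const c).add (hε.mul_const d)
      simpa using this
    have h5 : ∀ c : ℝ, Tendsto (fun N => (1 - ε N) * c) atTop (𝓝 c) := by
      intro c
      have := h4 c 0
      simpa using this
    refine Tendsto.prodMk_nhds (Tendsto.prodMk_nhds (h4 _ _) (h5 _)) ?_
    exact tendsto_pi_nhds.2 fun i => h4 _ _
  exact hsy.compact.isClosed.mem_of_tendsto htend (Eventually.of_forall hmem)

theorem main_case {k : ℕ} {b : Fin (k + 1) → E n} (hj : k + 1 + 1 ≤ n) (h : FrH H a u b)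
    (hD : Ext2 H (k + 1 + 1) D) {X : Set (Y (k + 1))} (hX : NC X) {p : ℝ → ℝ} (hp : Ht p)
    (hin : ∀ x ∈ Icc (0 : ℝ) 1, ∃ α, ∀ q ∈ cu (k + 1), ∀ s ∈ Icc α (α + p x), ((x, s), q) ∈ X)
    (lo : ℝ → ℝ)
    (hlo : ∀ t : ℝ, 0 ≤ t → ∀ y ∈ X, (∀ s : ℝ, ((y.1.1, s), y.2) ∈ Sp (k + 1) p → 2 * |s| ≤ t) →
      lo t ≤ y.1.2 ∧ y.1.2 ≤ lo t + t)
    {y₀ : Y (k + 1)} (hy₀ : p y₀.1.1 < 2 * |y₀.1.2|) :
    ¬ ∃ᶠ m : ℕ in atTop, y₀ ∈ dia D a u b (3 * m) X := by
  intro hfreq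
  let Λ : Set ℕ := {m | 0 < m ∧ y₀ ∈ dia D a u b (3 * m) X}
  have hΛ : ∃ᶠ m : ℕ in atTop, m ∈ Λ :=
    (hfreq.and_eventually (eventually_gt_atTop 0)).mono fun m hm => ⟨hm.2, hm.1⟩
  obtain ⟨m₀, hm₀⟩ := hΛ.exists
  have hpos : ∀ m ∈ Λ, (0 : ℝ) < 3 * m := fun m hm => by
    have : (0 : ℝ) < m := by exact_mod_cast hm.1
    positivity
  let S' : Set (Y (k + 1)) := ⋂ m : Λ, dia D a u b (3 * (m : ℕ)) X
  have hS'sub : ∀ m ∈ Λ, S' ⊆ dia D a u b (3 * m) X := fun m hm =>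
    Set.iInter_subset (fun m : Λ => dia D a u b (3 * (m : ℕ)) X) ⟨m, hm⟩
  have hSy : Sy S' := by
    refine ⟨?_, ?_, ?_⟩
    · refine (dia_sy h hD (hpos m₀ hm₀) hX).compact.of_isClosed_subset ?_ (hS'sub m₀ hm₀)
      exact isClosed_iInter fun m => (dia_sy h hD (hpos m m.2) hX).compact.isClosed
    · exact convex_iInter fun m => (dia_sy h hD (hpos m m.2) hX).convex
    · intro y hy
      rw [Set.mem_iInter] at hy ⊢
      exact fun m => (dia_sy h hD (hpos m m.2) hX).symm y (hy m)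
  have hSp := Sp_sy (k + 1) hp
  have hsub : Sp (k + 1) p ⊆ S' :=
    Set.subset_iInter fun m => Sp_sub hj h hD (hpos m m.2) hX hp hin
  have hy : y₀ ∈ S' := Set.mem_iInter.2 fun m => m.2.2
  obtain ⟨g₀, hg1, hg2, hg3⟩ := exists_g0 hj h.toFr
  have hT : T hj a u b (Sp (k + 1) p) < T hj a u b S' := by
    refine T_strict hj a u b hSp hSy hsub ((Sp_interior _ hp).mono (interior_mono hsub)) g₀ hg1 hg2
      hy ?_
    rintro ⟨z, ⟨-, hz, -⟩, hzy⟩
    obtain ⟨h1, h2⟩ := hg3 _ _ hzy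
    rw [h1, h2] at hz
    linarith
  obtain ⟨r, hr0, hr⟩ : ∃ r : ℝ, 0 ≤ r ∧ ∀ y ∈ X, ‖Phi a u b 0 y‖ ≤ r := by
    obtain ⟨r, hr⟩ := (hX.compact.image (Phi_continuous a u b 0)).isBounded.subset_closedBall 0
    refine ⟨max r 0, le_max_right _ _, fun y hy => ?_⟩
    have := hr ⟨y, hy, rfl⟩
    rw [mem_closedBall_zero_iff] at this
    exact this.trans (le_max_left _ _)
  have hineq : ∀ m ∈ Λ, ENNReal.ofReal (3 * m) * T hj a u b S' ≤
      ENNReal.ofReal (3 * m) * T hj a u b (Sp (k + 1) p) + err (k + 1) r := by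
    intro m hm
    have h1 : cc n (k + 1) * (ENNReal.ofReal (3 * m) * T hj a u b S') ≤
        cc n (k + 1) * (ENNReal.ofReal (3 * m) * T hj a u b (Sp (k + 1) p) + err (k + 1) r) :=
      calc _ ≤ V n (k + 1 + 1) (Phi a u b (3 * m) '' S') := V_lower hj a u b hSy (hpos m hm).le
        _ ≤ V n (k + 1 + 1) (Phi a u b (3 * m) '' dia D a u b (3 * m) X) :=
            V_mono (Set.image_mono (hS'sub m hm))
        _ = V n (k + 1 + 1) (Phi a u b (3 * m) '' X) := dia_V h hD (hpos m hm) hX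
        _ ≤ _ := V_upper hj a u b hX.compact hSp lo hlo (hpos m hm).le hr0 hr
    exact (ENNReal.mul_le_mul_iff_right (const_ne_zero n (k + 1 + 1)) (const_ne_top hj)).1 h1
  have hTt : T hj a u b (Sp (k + 1) p) ≠ ∞ := (T_lt_top hj a u b hSp).ne
  set δ := T hj a u b S' - T hj a u b (Sp (k + 1) p) with hδ
  have hδ0 : δ ≠ 0 := (tsub_pos_of_lt hT).ne'
  have hδe : T hj a u b S' = T hj a u b (Sp (k + 1) p) + δ :=
    (add_tsub_cancel_of_le hT.le).symm
  obtain ⟨N, hN⟩ := ENNReal.exists_nat_mul_gt hδ0 (err_ne_top (k + 1) r)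
  obtain ⟨m, hm, hmN⟩ := (hΛ.and_eventually (eventually_ge_atTop N)).exists
  have h1 := hineq m hm
  rw [hδe, mul_add] at h1
  have h2 : ENNReal.ofReal (3 * m) * δ ≤ err (k + 1) r :=
    (ENNReal.add_le_add_iff_left (ENNReal.mul_ne_top ENNReal.ofReal_ne_top hTt)).1 h1
  have h3 : (N : ℝ≥0∞) ≤ ENNReal.ofReal (3 * m) := by
    rw [← ENNReal.ofReal_natCast]
    refine ENNReal.ofReal_le_ofReal ?_
    have : (N : ℝ) ≤ m := by exact_mod_cast hmN
    have h0 : (0 : ℝ) ≤ m := Nat.cast_nonneg m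
    linarith
  have h4 : (N : ℝ≥0∞) * δ ≤ err (k + 1) r := (mul_le_mul_left h3 δ).trans h2
  exact absurd hN (not_lt.2 h4)

/-- The lower wedge. -/
def L1 (k : ℕ) : Set (Y k) := {y | y.1.1 ≤ 1 ∧ 0 ≤ y.1.2 ∧ y.1.2 ≤ y.1.1 ∧ y.2 ∈ cu k}

/-- The upper wedge. -/
def L2 (k : ℕ) : Set (Y k) := {y | 0 ≤ y.1.1 ∧ y.1.1 ≤ y.1.2 ∧ y.1.2 ≤ 1 ∧ y.2 ∈ cu k}

theorem L1_NC (k : ℕ) : NC (L1 k) := by
  refine ⟨?_, ?_, ?_⟩
  · have h1 : IsCompact ((Icc (0 : ℝ) 1 ×ˢ Icc (0 : ℝ) 1) ×ˢ cu k) :=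
      (isCompact_Icc.prod isCompact_Icc).prod isCompact_Icc
    refine h1.of_isClosed_subset ?_ ?_
    · have c1 : Continuous (fun y : Y k => y.1.1) := by fun_prop
      have c2 : Continuous (fun y : Y k => y.1.2) := by fun_prop
      exact IsClosed.inter (isClosed_le c1 continuous_const)
        (IsClosed.inter (isClosed_le continuous_const c2)
          (IsClosed.inter (isClosed_le c2 c1)
            (isClosed_Icc.preimage continuous_snd)))
    · rintro y ⟨h0, h1, h2, h3⟩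
      exact ⟨⟨⟨h1.trans h2, h0⟩, ⟨h1, h2.trans h0⟩⟩, h3⟩
  · rintro y ⟨h0, h1, h2, h3⟩ z ⟨g0, g1, g2, g3⟩ s t hs ht hst
    refine ⟨?_, ?_, ?_, convex_Icc _ _ h3 g3 hs ht hst⟩
    · simp only [Prod.fst_add, Prod.smul_fst, smul_eq_mul]
      nlinarith
    · simp only [Prod.fst_add, Prod.smul_fst, Prod.snd_add, Prod.smul_snd, smul_eq_mul]
      positivity
    · simp only [Prod.fst_add, Prod.smul_fst, Prod.snd_add, Prod.smul_snd, smul_eq_mul]
      gcongr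
  · exact ⟨((0, 0), 0), zero_le_one, le_rfl, le_rfl, ⟨le_rfl, fun i => zero_le_one⟩⟩

theorem L2_NC (k : ℕ) : NC (L2 k) := by
  refine ⟨?_, ?_, ?_⟩
  · have h1 : IsCompact ((Icc (0 : ℝ) 1 ×ˢ Icc (0 : ℝ) 1) ×ˢ cu k) :=
      (isCompact_Icc.prod isCompact_Icc).prod isCompact_Icc
    refine h1.of_isClosed_subset ?_ ?_
    · have c1 : Continuous (fun y : Y k => y.1.1) := by fun_prop
      have c2 : Continuous (fun y : Y k => y.1.2) := by fun_prop
      exact IsClosed.inter (isClosed_le continuous_const c1)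
        (IsClosed.inter (isClosed_le c1 c2)
          (IsClosed.inter (isClosed_le c2 continuous_const)
            (isClosed_Icc.preimage continuous_snd)))
    · rintro y ⟨h0, h1, h2, h3⟩
      exact ⟨⟨⟨h0, h1.trans h2⟩, ⟨h0.trans h1, h2⟩⟩, h3⟩
  · rintro y ⟨h0, h1, h2, h3⟩ z ⟨g0, g1, g2, g3⟩ s t hs ht hst
    refine ⟨?_, ?_, ?_, convex_Icc _ _ h3 g3 hs ht hst⟩
    · simp only [Prod.fst_add, Prod.smul_fst, smul_eq_mul]
      positivity
    · simp only [Prod.fst_add, Prod.smul_fst, Prod.snd_add, Prod.smul_snd, smul_eq_mul]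
      gcongr
    · simp only [Prod.fst_add, Prod.smul_fst, Prod.snd_add, Prod.smul_snd, smul_eq_mul]
      nlinarith
  · exact ⟨((0, 0), 0), le_rfl, le_rfl, zero_le_one, ⟨le_rfl, fun i => zero_le_one⟩⟩

theorem Ht1 : Ht (fun x => x) := by
  refine ⟨?_, continuous_id, fun x hx => hx.1, fun x hx => hx.2, rfl⟩
  intro x y s t _
  rfl

theorem Ht2 : Ht (fun x => 1 - x) := by
  refine ⟨?_, by fun_prop, fun x hx => by linarith [hx.2], fun x hx => by linarith [hx.1],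
    by norm_num⟩
  intro x y s t hst
  linear_combination -hst

theorem case1 {k : ℕ} {b : Fin (k + 1) → E n} (hj : k + 1 + 1 ≤ n) (h : FrH H a u b)
    (hD : Ext2 H (k + 1 + 1) D) {y₀ : Y (k + 1)} (hy₀ : y₀.1.1 < 2 * |y₀.1.2|) :
    ¬ ∃ᶠ m : ℕ in atTop, y₀ ∈ dia D a u b (3 * m) (L1 (k + 1)) := by
  refine main_case hj h hD (L1_NC _) Ht1 ?_ (fun _ => 0) ?_ hy₀
  · intro x hx
    refine ⟨0, fun q hq s hs => ⟨hx.2, hs.1, ?_, hq⟩⟩
    have := hs.2
    simp only [zero_add] at this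
    exact this
  · rintro t ht y ⟨h0, h1, h2, h3⟩ hs
    refine ⟨h1, ?_⟩
    have := hs (y.1.1 / 2) ⟨⟨h1.trans h2, h0⟩, ?_, h3⟩
    · rw [abs_of_nonneg (by linarith)] at this
      linarith
    · simp only
      rw [abs_of_nonneg (by linarith)]
      linarith

theorem case2 {k : ℕ} {b : Fin (k + 1) → E n} (hj : k + 1 + 1 ≤ n) (h : FrH H a u b)
    (hD : Ext2 H (k + 1 + 1) D) {y₀ : Y (k + 1)} (hy₀ : 1 - y₀.1.1 < 2 * |y₀.1.2|) :
    ¬ ∃ᶠ m : ℕ in atTop, y₀ ∈ dia D a u b (3 * m) (L2 (k + 1)) := by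
  refine main_case hj h hD (L2_NC _) Ht2 ?_ (fun t => 1 - t) ?_ hy₀
  · intro x hx
    refine ⟨x, fun q hq s hs => ⟨hx.1, hs.1, ?_, hq⟩⟩
    have := hs.2
    simp only at this ⊢
    linarith
  · rintro t ht y ⟨h0, h1, h2, h3⟩ hs
    have := hs ((1 - y.1.1) / 2) ⟨⟨h0, h1.trans h2⟩, ?_, h3⟩
    · rw [abs_of_nonneg (by linarith)] at this
      change 1 - t ≤ y.1.2 ∧ y.1.2 ≤ 1 - t + t
      constructor <;> linarith
    · simp only
      rw [abs_of_nonneg (by linarith)]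
      linarith

theorem Pl_sub1 (k : ℕ) : Pl k ⊆ L1 k := by
  rintro y ⟨h0, h1, h2, h3⟩
  exact ⟨h1, h2 ▸ h0, h2.le, h3⟩

theorem Pl_sub2 (k : ℕ) : Pl k ⊆ L2 k := by
  rintro y ⟨h0, h1, h2, h3⟩
  exact ⟨h0, h2.ge, h2 ▸ h1, h3⟩

/-- The contradiction, for a good frame. -/
theorem contra {k : ℕ} {b : Fin (k + 1) → E n} (hj : k + 1 + 1 ≤ n) (h : FrH H a u b)
    (hD : Ext2 H (k + 1 + 1) D)
    (hβ : 2 * V n (k + 1 + 1) (Phi a u b 1 '' Bo (k + 1)) <
      3 * V n (k + 1 + 1) (Th u b '' (Icc (0 : ℝ) 1 ×ˢ cu (k + 1)))) : False := by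
  have hhigh := fun m : ℕ => high_point hj h hD hβ (m := m + 1) (Nat.succ_pos m)
  choose x hx q hq hxq using hhigh
  -- a cluster point
  have hcomp : IsCompact (Icc (0 : ℝ) 1 ×ˢ cu (k + 1)) := isCompact_Icc.prod isCompact_Icc
  obtain ⟨⟨X, Q⟩, ⟨hX, hQ⟩, hcl⟩ := hcomp.exists_mapClusterPt (f := atTop)
    (u := fun m : ℕ => (x m, q m)) (Filter.tendsto_principal.2
      (Eventually.of_forall fun m => ⟨hx m, hq m⟩))
  simp only at hX hQ
  have hfr : ∃ᶠ m : ℕ in atTop, dist (x m, q m) (X, Q) < 1 / 20 :=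
    hcl.frequently (Metric.ball_mem_nhds _ (by norm_num))
  let y₀ : Y (k + 1) := ((11 / 12 * X + 1 / 24, 5 / 18), fun i => 11 / 12 * Q i + 1 / 24)
  have key : ∀ (p : ℝ → ℝ), Ht p → ∀ W : Set (Y (k + 1)), NC W → Pl (k + 1) ⊆ W →
      (∀ x ∈ Icc (0 : ℝ) 1, ∃ α, ∀ q ∈ cu (k + 1), ∀ s ∈ Icc α (α + p x), ((x, s), q) ∈ W) →
      ∃ᶠ m : ℕ in atTop, y₀ ∈ dia D a u b (3 * m) W := by
    intro p hp W hW hPW hin
    have h1 : ∃ᶠ m : ℕ in atTop, y₀ ∈ dia D a u b (3 * ((m + 1 : ℕ) : ℝ)) W := by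
      refine hfr.mono fun m hm => ?_
      have hl : (0 : ℝ) < 3 * ((m + 1 : ℕ) : ℝ) := by positivity
      have hm1 : |x m - X| ≤ 1 / 20 := by
        rw [← Real.dist_eq]
        exact (le_max_left _ _).trans hm.le
      have hm2 : ∀ i, |q m i - Q i| ≤ 1 / 20 := by
        intro i
        rw [← Real.dist_eq]
        exact (dist_le_pi_dist _ _ i).trans ((le_max_right _ _).trans hm.le)
      have h2 : ((x m, 1 / 3), q m) ∈ dia D a u b (3 * ((m + 1 : ℕ) : ℝ)) W :=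
        dia_mono hD _ (Pl_NC _) hW hPW (hxq m)
      have h4 : (((1 / 2 : ℝ) * X + 1 / 4 + 5 * (X - x m), (0 : ℝ)),
          fun i => (1 / 2 : ℝ) * Q i + 1 / 4 + 5 * (Q i - q m i)) ∈
            dia D a u b (3 * ((m + 1 : ℕ) : ℝ)) W := by
        refine Sp_sub hj h hD hl hW hp hin ?_
        have hx0 : (1 / 2 : ℝ) * X + 1 / 4 + 5 * (X - x m) ∈ Icc (0 : ℝ) 1 := by
          rw [abs_le] at hm1
          constructor <;> linarith [hX.1, hX.2, hm1.1, hm1.2]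
        refine ⟨hx0, ?_, ?_, ?_⟩
        · simp only [abs_zero, mul_zero]
          exact hp.nonneg _ hx0
        · intro i
          have h5 := abs_le.1 (hm2 i)
          have h6 := hQ.1 i
          simp only [Pi.zero_apply] at h6 ⊢
          linarith [h5.1, h5.2]
        · intro i
          have h5 := abs_le.1 (hm2 i)
          have h6 := hQ.2 i
          simp only [Pi.one_apply] at h6 ⊢
          linarith [h5.1, h5.2]
      have h5 := (dia_sy h hD hl hW).convex h4 h2 (a := 1 / 6) (b := 5 / 6) (by norm_num)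
        (by norm_num) (by norm_num)
      convert h5 using 1
      refine Prod.ext (Prod.ext ?_ ?_) ?_
      · simp only [Prod.fst_add, Prod.smul_fst, smul_eq_mul, y₀]
        ring
      · simp only [Prod.fst_add, Prod.smul_fst, Prod.snd_add, Prod.smul_snd, smul_eq_mul, y₀]
        norm_num
      · funext i
        simp only [Prod.snd_add, Prod.smul_snd, Pi.add_apply, Pi.smul_apply, smul_eq_mul, y₀]
        ring
    rw [Filter.frequently_atTop] at h1 ⊢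
    intro N
    obtain ⟨m, hm, hy⟩ := h1 N
    exact ⟨m + 1, by omega, hy⟩
  rcases le_total X (1 / 2) with hX2 | hX2
  · refine case1 hj h hD (y₀ := y₀) ?_ (key _ Ht1 _ (L1_NC _) (Pl_sub1 _) ?_)
    · simp only [y₀]
      rw [abs_of_pos (by norm_num)]
      linarith
    · intro x hx
      refine ⟨0, fun q hq s hs => ⟨hx.2, hs.1, ?_, hq⟩⟩
      have := hs.2
      simp only [zero_add] at this
      exact this
  · refine case2 hj h hD (y₀ := y₀) ?_ (key _ Ht2 _ (L2_NC _) (Pl_sub2 _) ?_)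
    · simp only [y₀]
      rw [abs_of_pos (by norm_num)]
      linarith
    · intro x hx
      refine ⟨x, fun q hq s hs => ⟨hx.1, hs.1, ?_, hq⟩⟩
      have := hs.2
      simp only at this ⊢
      linarith

end Pool.Agent.W570.Sym
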