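import Pool.Agent.W570.Sym.Dia

/-!
Plates: translation and rotation invariance, and the lower bound for the symmetrization.
-/

namespace Pool.Agent.W570.Sym

open MeasureTheory Module Set Filter Topology
open scoped ENNReal
open Pool.Agent.Results.MP_b62b68_gt.NoSymmetrization

theorem V_translate {n j : ℕ} (hj : j ≤ n) (t : E n) (K : Set (E n)) :
    V n j ((fun x => t + x) '' K) = V n j K := by
  rw [V_eq hj, V_eq hj]
  congr 1
  refine lintegral_congr fun g => ?_
  have h1 : A n j hj g '' ((fun x => t + x) '' K) =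
      (fun x => A n j hj g t + x) '' (A n j hj g '' K) := by
    rw [Set.image_image, Set.image_image]
    exact Set.image_congr fun x _ => map_add _ _ _
  rw [h1, Set.image_add_left, measure_preimage_add]

theorem V_iUnion_le {n j : ℕ} (hj : j ≤ n) {m : ℕ} (K : Fin m → Set (E n))
    (hK : ∀ i, IsCompact (K i)) : V n j (⋃ i, K i) ≤ ∑ i, V n j (K i) := by
  simp only [V_eq hj]
  rw [← Finset.mul_sum, ← lintegral_finsetSum _ (fun i _ => measurable_vol hj (hK i))]
  gcongr with g
  rw [Set.image_iUnion]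
  exact measure_iUnion_fintype_le _ _

theorem V_rot {n j : ℕ} (hj : j ≤ n) (M : O n) (K : Set (E n)) :
    V n j ((fun x => Matrix.toEuclideanLin M.1 x) '' K) = V n j K := by
  rw [V_eq hj, V_eq hj]
  congr 1
  rw [← lintegral_mul_left_eq_self (μ := haarO n) (fun g => volume (A n j hj g '' K)) M⁻¹]
  refine lintegral_congr fun g => ?_
  rw [Set.image_image]
  congr 1
  refine Set.image_congr fun x _ => ?_
  ext i
  rw [A_apply, A_apply]
  simp only [PiLp.inner_apply, col]
  simp only [RCLike.inner_apply, conj_trivial]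
  have h1 : ∀ l, (Matrix.toEuclideanLin M.1 x) l = ∑ m, M.1 l m * x m := by
    intro l
    rfl
  have h2 : ∀ l m, (M⁻¹ * g).1 l m = ∑ p, M.1 p l * g.1 p m := by
    intro l m
    have : (M⁻¹ * g).1 = star M.1 * g.1 := rfl
    rw [this, Matrix.mul_apply]
    refine Finset.sum_congr rfl fun p _ => ?_
    rw [Matrix.star_apply]
    simp
  simp only [h1, h2, Finset.sum_mul, Finset.mul_sum]
  rw [Finset.sum_comm]
  refine Finset.sum_congr rfl fun p _ => Finset.sum_congr rfl fun l _ => ?_
  ring

/-- The space of the plates. -/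
abbrev Z (k : ℕ) : Type := ℝ × (Fin k → ℝ)

instance haarZ (k : ℕ) : (volume : Measure (Z k)).IsAddHaarMeasure :=
  Measure.prod.instIsAddHaarMeasure _ _

/-- The parametrisation of the plates. -/
def Th {n k : ℕ} (w : E n) (b : Fin k → E n) : Z k →ₗ[ℝ] E n where
  toFun z := z.1 • w + ∑ i, z.2 i • b i
  map_add' y z := by
    simp only [Prod.fst_add, Prod.snd_add, add_smul, Pi.add_apply, Finset.sum_add_distrib]
    abel
  map_smul' c y := by
    simp only [Prod.smul_fst, Prod.smul_snd, smul_eq_mul, Pi.smul_apply, mul_smul, smul_add,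
      Finset.smul_sum, RingHom.id_apply]

theorem Th_apply {n k : ℕ} (w : E n) (b : Fin k → E n) (z : Z k) :
    Th w b z = z.1 • w + ∑ i, z.2 i • b i := rfl

theorem Th_injective {n k : ℕ} {w : E n} {b : Fin k → E n} (hw : ‖w‖ = 1)
    (hwb : ∀ i, inner ℝ w (b i) = 0) (hb : Orthonormal ℝ b) : Function.Injective (Th w b) := by
  rw [← LinearMap.ker_eq_bot, LinearMap.ker_eq_bot']
  intro y hy
  rw [Th_apply] at hy
  have huu : inner ℝ w w = 1 := by rw [real_inner_self_eq_norm_sq, hw]; norm_num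
  have hbu : ∀ i, inner ℝ (b i) w = 0 := fun i => by rw [real_inner_comm]; exact hwb i
  have hbb := orthonormal_iff_ite.1 hb
  have h1 : y.1 = 0 := by
    have := congrArg (fun v => inner ℝ w v) hy
    simp only [inner_add_right, inner_smul_right, inner_sum, hwb, huu, inner_zero_right] at this
    simpa using this
  have h3 : ∀ i, y.2 i = 0 := by
    intro i
    have := congrArg (fun v => inner ℝ (b i) v) hy
    simp only [inner_add_right, inner_smul_right, inner_sum, hbu, hbb, inner_zero_right] at this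
    simpa using this
  exact Prod.ext h1 (funext h3)

/-- The intrinsic volume of plates. -/
theorem Th_V {n k : ℕ} (hj : k + 1 ≤ n) {w : E n} {b : Fin k → E n} (hw : ‖w‖ = 1)
    (hwb : ∀ i, inner ℝ w (b i) = 0) (hb : Orthonormal ℝ b) :
    ∃ c : ℝ≥0∞, c ≠ 0 ∧ c ≠ ∞ ∧ ∀ S : Set (Z k), V n (k + 1) (Th w b '' S) = c * volume S := by
  refine V_linear hj volume ?_ (Th w b) (Th_injective hw hwb hb)
  simp [Z, Module.finrank_prod, add_comm]

theorem Th_cons {n k : ℕ} (w : E n) (b : Fin k → E n) (z : Z k) :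
    Th w b z = ∑ i : Fin (k + 1), (Fin.cons z.1 z.2 : Fin (k + 1) → ℝ) i •
      (Fin.cons w b : Fin (k + 1) → E n) i := by
  rw [Th_apply, Fin.sum_univ_succ]
  simp

/-- Plates in different positions. -/
theorem Th_rot {n k : ℕ} (hj : k + 1 ≤ n) {w w' : E n} {b : Fin k → E n} (hw : ‖w‖ = 1)
    (hwb : ∀ i, inner ℝ w (b i) = 0) (hw' : ‖w'‖ = 1)
    (hwb' : ∀ i, inner ℝ w' (b i) = 0) (hb : Orthonormal ℝ b) (S : Set (Z k)) :
    V n (k + 1) (Th w b '' S) = V n (k + 1) (Th w' b '' S) := by
  have key : ∀ w : E n, ‖w‖ = 1 → (∀ i, inner ℝ w (b i) = 0) →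
      ∃ g : O n, ∀ i, col g (Fin.castLE hj i) = (Fin.cons w b : Fin (k + 1) → E n) i := by
    intro w hw hwb
    refine exists_cols hj ?_
    have hbu : ∀ i, inner ℝ (b i) w = 0 := fun i => by rw [real_inner_comm]; exact hwb i
    have hbb := orthonormal_iff_ite.1 hb
    rw [orthonormal_iff_ite]
    intro i l
    refine Fin.cases ?_ (fun i => ?_) i
    · refine Fin.cases ?_ (fun l => ?_) l
      · simp [hw]
      · simp [hwb, (Fin.succ_ne_zero _).symm]
    · refine Fin.cases ?_ (fun l => ?_) l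
      · simp [hbu]
      · simp [hbb]
  obtain ⟨g, hg⟩ := key w hw hwb
  obtain ⟨g', hg'⟩ := key w' hw' hwb'
  rw [← V_rot hj (g' * g⁻¹) (Th w b '' S), Set.image_image]
  congr 1
  refine Set.image_congr fun z _ => ?_
  rw [Th_cons, Th_cons, map_sum]
  refine Finset.sum_congr rfl fun i _ => ?_
  rw [map_smul, ← hg, ← hg']
  congr 1
  -- `g' g⁻¹` maps the columns of `g` to the columns of `g'`
  have h1 : (g' * g⁻¹).1 = g'.1 * star g.1 := rfl
  have h2 : ∀ m : Fin n, Matrix.toEuclideanLin ((g' * g⁻¹).1) (col g m) = col g' m := by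
    intro m
    have h3 : ((g' * g⁻¹ * g).1) = g'.1 := by
      congr 1
      exact inv_mul_cancel_right g' g
    ext l
    change ∑ p, (g' * g⁻¹).1 l p * g.1 p m = g'.1 l m
    rw [← Matrix.mul_apply]
    exact congrFun (congrFun h3 l) m
  exact h2 _

end Pool.Agent.W570.Sym
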