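import Pool.Agent.W570.Sym.Plate

/-!
The lower bound for the symmetrization and the high point over a tilted plate.
-/

namespace Pool.Agent.W570.Sym

open MeasureTheory Module Set Filter Topology
open scoped ENNReal
open Pool.Agent.Results.MP_b62b68_gt.NoSymmetrization

variable {n k : ℕ} {H : Submodule ℝ (E n)} {a u : E n} {b : Fin k → E n}
  {D : Set (E n) → Set (E n)}

theorem V_plate (hj : k + 1 ≤ n) (h : Fr a u b) : ∃ c : ℝ≥0∞, c ≠ 0 ∧ c ≠ ∞ ∧
    ∀ (l : ℝ), 0 < l → ∀ (x₀ α β : ℝ) (Q : Set (Fin k → ℝ)),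
      V n (k + 1) (Phi a u b l '' (({x₀} ×ˢ Icc α β) ×ˢ Q)) =
        c * (ENNReal.ofReal (l * (β - α)) * volume Q) := by
  obtain ⟨c, hc0, hct, hc⟩ := Th_V hj h.un h.ub h.bb
  refine ⟨c, hc0, hct, fun l hl x₀ α β Q => ?_⟩
  have h1 : Phi a u b l '' (({x₀} ×ˢ Icc α β) ×ˢ Q) =
      (fun x => x₀ • a + x) '' (Th u b '' (Icc (l * α) (l * β) ×ˢ Q)) := by
    rw [Set.image_image]
    ext x
    constructor
    · rintro ⟨⟨⟨y, s⟩, q⟩, ⟨⟨hy, hs⟩, hq⟩, rfl⟩
      simp only [Set.mem_singleton_iff] at hy hs hq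
      refine ⟨(l * s, q), ⟨⟨mul_le_mul_of_nonneg_left hs.1 hl.le,
        mul_le_mul_of_nonneg_left hs.2 hl.le⟩, hq⟩, ?_⟩
      simp only [Phi_apply, Th_apply, hy]
      rw [add_assoc]
    · rintro ⟨⟨t, q⟩, ⟨ht, hq⟩, rfl⟩
      refine ⟨((x₀, t / l), q), ⟨⟨rfl, ?_, ?_⟩, hq⟩, ?_⟩
      · simp only
        rw [le_div_iff₀ hl, mul_comm]
        exact ht.1
      · simp only
        rw [div_le_iff₀ hl, mul_comm β]
        exact ht.2
      · simp only [Phi_apply, Th_apply]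
        rw [mul_div_cancel₀ _ hl.ne', add_assoc]
  rw [h1, V_translate hj, hc, Measure.volume_eq_prod, Measure.prod_prod, Real.volume_Icc,
    mul_sub]

/-- The lower bound. -/
theorem steiner_point (hj : k + 1 ≤ n) (h : FrH H a u b) (hD : Ext2 H (k + 1) D) {l : ℝ}
    (hl : 0 < l) {X : Set (Y k)} (hX : NC X) {x₀ α p : ℝ} (hp : 0 < p)
    (hin : ∀ q ∈ Icc (0 : Fin k → ℝ) 1, ∀ s ∈ Icc α (α + p), ((x₀, s), q) ∈ X)
    {q₀ : Fin k → ℝ} (hq₀ : q₀ ∈ Icc (0 : Fin k → ℝ) 1) :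
    ((x₀, p / 2), q₀) ∈ dia D a u b l X := by
  have hsy := dia_sy h hD hl hX
  rw [← hsy.compact.isClosed.closure_eq, Metric.mem_closure_iff]
  intro ε hε
  obtain ⟨c, hc0, hct, hc⟩ := V_plate hj h.toFr
  set ε' := ε / 2 with hε'
  have hε'0 : 0 < ε' := by positivity
  let Q : Set (Fin k → ℝ) := Icc (fun i => max 0 (q₀ i - ε')) (fun i => min 1 (q₀ i + ε'))
  have hlt : ∀ i, max 0 (q₀ i - ε') < min 1 (q₀ i + ε') := by
    intro i
    have h1 : 0 ≤ q₀ i := hq₀.1 i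
    have h2 : q₀ i ≤ 1 := hq₀.2 i
    refine max_lt (lt_min one_pos (by linarith)) (lt_min (by linarith) (by linarith))
  have hQne : Q.Nonempty := ⟨_, Set.left_mem_Icc.2 fun i => (hlt i).le⟩
  have hQvol : volume Q ≠ 0 := by
    change volume (Icc _ _) ≠ 0
    rw [Real.volume_Icc_pi, Finset.prod_ne_zero_iff]
    intro i _
    rw [Ne, ENNReal.ofReal_eq_zero, not_le]
    linarith [hlt i]
  have hQvol' : volume Q ≠ ∞ := isCompact_Icc.measure_lt_top.ne
  have hQsub : Q ⊆ Icc (0 : Fin k → ℝ) 1 := by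
    intro q hq
    exact ⟨fun i => (le_max_left _ _).trans (hq.1 i), fun i => (hq.2 i).trans (min_le_left _ _)⟩
  have hQd : ∀ q ∈ Q, dist q₀ q ≤ ε' := by
    intro q hq
    rw [dist_pi_le_iff hε'0.le]
    intro i
    have h1 : q₀ i - ε' ≤ q i := (le_max_right _ _).trans (hq.1 i)
    have h2 : q i ≤ q₀ i + ε' := (hq.2 i).trans (min_le_right _ _)
    rw [Real.dist_eq, abs_le]
    constructor <;> linarith
  let W : Set (Y k) := ({x₀} ×ˢ Icc α (α + p)) ×ˢ Q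
  have hW : NC W := ⟨(isCompact_singleton.prod isCompact_Icc).prod isCompact_Icc,
    ((convex_singleton _).prod (convex_Icc _ _)).prod (convex_Icc _ _),
    ((Set.singleton_nonempty _).prod (Set.nonempty_Icc.2 (by linarith))).prod hQne⟩
  have hWX : W ⊆ X := by
    rintro ⟨⟨x, s⟩, q⟩ ⟨⟨hx, hs⟩, hq⟩
    simp only [Set.mem_singleton_iff] at hx
    subst hx
    exact hin q (hQsub hq) s hs
  have hVW : V n (k + 1) (Phi a u b l '' W) = c * (ENNReal.ofReal (l * p) * volume Q) := by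
    have := hc l hl x₀ α (α + p) Q
    rw [add_sub_cancel_left] at this
    exact this
  have hVd := dia_V h hD hl hW
  have hsyW := dia_sy h hD hl hW
  have hdW : ∀ y ∈ dia D a u b l W, y.1.1 = x₀ ∧ y.2 ∈ Q := by
    intro y hy
    obtain ⟨s, hs⟩ := dia_hor h hD hl hW hy
    exact ⟨hs.1.1, hs.2⟩
  obtain ⟨y, hy, hys⟩ : ∃ y ∈ dia D a u b l W, p / 2 ≤ |y.1.2| := by
    by_contra hcon
    push Not at hcon
    obtain ⟨m, hm0, hm1, hm2⟩ : ∃ m : ℝ, 0 ≤ m ∧ m < p / 2 ∧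
        ∀ y ∈ dia D a u b l W, |y.1.2| ≤ m := by
      rcases (dia D a u b l W).eq_empty_or_nonempty with h0 | h0
      · exact ⟨0, le_rfl, by positivity, by rw [h0]; simp⟩
      · obtain ⟨y₀, hy₀, hmax⟩ := hsyW.compact.exists_isMaxOn h0
          (f := fun y : Y k => |y.1.2|) (by fun_prop)
        exact ⟨|y₀.1.2|, abs_nonneg _, hcon y₀ hy₀, fun y hy => hmax hy⟩
    have h1 : dia D a u b l W ⊆ ({x₀} ×ˢ Icc (-m) m) ×ˢ Q := by
      intro y hy
      obtain ⟨h2, h3⟩ := hdW y hy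
      exact ⟨⟨h2, abs_le.1 (hm2 y hy)⟩, h3⟩
    have h2 : V n (k + 1) (Phi a u b l '' W) ≤
        c * (ENNReal.ofReal (l * (m - -m)) * volume Q) := by
      rw [← hVd, ← hc l hl x₀ (-m) m Q]
      exact V_mono (Set.image_mono h1)
    rw [hVW] at h2
    have h3 : ENNReal.ofReal (l * (m - -m)) < ENNReal.ofReal (l * p) := by
      rw [ENNReal.ofReal_lt_ofReal_iff (by positivity)]
      nlinarith
    have h4 : c * (ENNReal.ofReal (l * (m - -m)) * volume Q) <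
        c * (ENNReal.ofReal (l * p) * volume Q) := by
      rw [ENNReal.mul_lt_mul_iff_right hc0 hct, ENNReal.mul_lt_mul_iff_left hQvol hQvol']
      exact h3
    exact absurd h2 (not_le.2 h4)
  obtain ⟨hy1, hy2⟩ := hdW y hy
  have hyX : y ∈ dia D a u b l X := dia_mono hD l hW hX hWX hy
  refine ⟨((y.1.1, p / 2), y.2), hsy.seg hyX ?_, ?_⟩
  · rw [abs_of_pos (by positivity)]
    exact hys
  · rw [Prod.dist_eq, Prod.dist_eq, hy1]
    simp only [dist_self, max_self]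
    refine lt_of_le_of_lt (max_le hε'0.le (hQd _ hy2)) ?_
    rw [hε']
    linarith

/-- The unit cube. -/
abbrev cu (k : ℕ) : Set (Fin k → ℝ) := Icc (0 : Fin k → ℝ) 1

/-- The tilted plate. -/
def Pl (k : ℕ) : Set (Y k) := {y | 0 ≤ y.1.1 ∧ y.1.1 ≤ 1 ∧ y.1.2 = y.1.1 ∧ y.2 ∈ cu k}

theorem Pl_NC (k : ℕ) : NC (Pl k) := by
  refine ⟨?_, ?_, ?_⟩
  · have h1 : IsCompact ((Icc (0 : ℝ) 1 ×ˢ Icc (0 : ℝ) 1) ×ˢ cu k) :=
      (isCompact_Icc.prod isCompact_Icc).prod isCompact_Icc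
    refine h1.of_isClosed_subset ?_ ?_
    · have c1 : Continuous (fun y : Y k => y.1.1) := by fun_prop
      have c2 : Continuous (fun y : Y k => y.1.2) := by fun_prop
      exact IsClosed.inter (isClosed_le continuous_const c1)
        (IsClosed.inter (isClosed_le c1 continuous_const)
          (IsClosed.inter (isClosed_eq c2 c1)
            (isClosed_Icc.preimage continuous_snd)))
    · rintro y ⟨h0, h1, h2, h3⟩
      exact ⟨⟨⟨h0, h1⟩, ⟨h2 ▸ h0, h2 ▸ h1⟩⟩, h3⟩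
  · rintro y ⟨h0, h1, h2, h3⟩ z ⟨g0, g1, g2, g3⟩ s t hs ht hst
    refine ⟨?_, ?_, ?_, convex_Icc _ _ h3 g3 hs ht hst⟩
    · simp only [Prod.fst_add, Prod.smul_fst, smul_eq_mul]
      positivity
    · simp only [Prod.fst_add, Prod.smul_fst, smul_eq_mul]
      nlinarith
    · simp only [Prod.fst_add, Prod.smul_fst, Prod.snd_add, Prod.smul_snd, smul_eq_mul, h2, g2]
  · exact ⟨((0, 0), 0), le_rfl, zero_le_one, rfl, ⟨le_rfl, fun i => zero_le_one⟩⟩

/-- The unit box. -/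
def Bo (k : ℕ) : Set (Y k) := (Icc (0 : ℝ) 1 ×ˢ Icc (0 : ℝ) 1) ×ˢ cu k

/-- The volume of the tilted plate. -/
theorem V_Pl (hj : k + 1 ≤ n) (h : Fr a u b) {l : ℝ} (hl : 0 < l) :
    ENNReal.ofReal l * V n (k + 1) (Th u b '' (Icc (0 : ℝ) 1 ×ˢ cu k)) ≤
      V n (k + 1) (Phi a u b l '' Pl k) := by
  have huu : inner ℝ u u = 1 := by rw [real_inner_self_eq_norm_sq, h.un]; norm_num
  have haa : inner ℝ a a = ‖a‖ ^ 2 := real_inner_self_eq_norm_sq a
  have hau : inner ℝ a u = 0 := by rw [real_inner_comm]; exact h.ua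
  set r : ℝ := √(‖a‖ ^ 2 + l ^ 2) with hr
  have hr1 : l ≤ r := by
    rw [hr]
    apply Real.le_sqrt_of_sq_le
    nlinarith [sq_nonneg ‖a‖]
  have hr0 : 0 < r := hl.trans_le hr1
  let w : E n := r⁻¹ • (a + l • u)
  have hw : ‖w‖ = 1 := by
    have h1 : ‖a + l • u‖ = r := by
      rw [hr, eq_comm, Real.sqrt_eq_iff_mul_self_eq (by positivity) (norm_nonneg _),
        ← real_inner_self_eq_norm_mul_norm]
      simp only [inner_add_left, inner_add_right, inner_smul_left, inner_smul_right, haa, hau,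
        h.ua, huu, conj_trivial]
      ring
    change ‖r⁻¹ • (a + l • u)‖ = 1
    rw [norm_smul, h1, norm_inv, Real.norm_of_nonneg hr0.le, inv_mul_cancel₀ hr0.ne']
  have hwb : ∀ i, inner ℝ w (b i) = 0 := by
    intro i
    change inner ℝ (r⁻¹ • (a + l • u)) (b i) = 0
    rw [inner_smul_left, inner_add_left, inner_smul_left, h.ab, h.ub]
    simp
  obtain ⟨c, hc0, hct, hc⟩ := Th_V hj h.un h.ub h.bb
  have h2 : Phi a u b l '' Pl k = Th w b '' (Icc (0 : ℝ) r ×ˢ cu k) := by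
    ext x
    constructor
    · rintro ⟨y, ⟨h0, h1, h2, h3⟩, rfl⟩
      refine ⟨(r * y.1.1, y.2), ⟨⟨by positivity, ?_⟩, h3⟩, ?_⟩
      · simp only
        nlinarith
      · rw [Phi_apply, Th_apply]
        simp only [h2, w]
        rw [smul_smul, mul_right_comm, mul_inv_cancel₀ hr0.ne', one_mul, smul_add, smul_smul,
          mul_comm l]
    · rintro ⟨⟨t, q⟩, ⟨⟨ht0, ht1⟩, hq⟩, rfl⟩
      refine ⟨((t / r, t / r), q), ⟨by positivity, ?_, rfl, hq⟩, ?_⟩
      · simp only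
        rw [div_le_one hr0]
        exact ht1
      · rw [Phi_apply, Th_apply]
        simp only [w]
        rw [smul_smul, smul_add, smul_smul, mul_comm l, div_eq_mul_inv]
  rw [h2, Th_rot hj hw hwb h.un h.ub h.bb, hc, hc, Measure.volume_eq_prod, Measure.prod_prod,
    Measure.prod_prod, Real.volume_Icc, Real.volume_Icc]
  simp only [sub_zero, ENNReal.ofReal_one, one_mul]
  rw [mul_left_comm]
  gcongr

/-- The volume of a tall box. -/
theorem V_box (hj : k + 1 ≤ n) {m : ℕ} (hm : 0 < m) :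
    V n (k + 1) (Phi a u b (3 * m) '' ((Icc (0 : ℝ) 1 ×ˢ Icc (-(1 / 3) : ℝ) (1 / 3)) ×ˢ cu k)) ≤
      (2 * m : ℕ) * V n (k + 1) (Phi a u b 1 '' Bo k) := by
  have hm' : (0 : ℝ) < m := by exact_mod_cast hm
  have hBo : IsCompact (Phi a u b 1 '' Bo k) :=
    ((isCompact_Icc.prod isCompact_Icc).prod isCompact_Icc).image (Phi_continuous a u b 1)
  let K : Fin (2 * m) → Set (E n) := fun i =>
    (fun x => ((i : ℝ) - m) • u + x) '' (Phi a u b 1 '' Bo k)
  have hK : ∀ i, IsCompact (K i) := fun i => hBo.image (by fun_prop)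
  have hsub : Phi a u b (3 * m) '' ((Icc (0 : ℝ) 1 ×ˢ Icc (-(1 / 3) : ℝ) (1 / 3)) ×ˢ cu k) ⊆
      ⋃ i, K i := by
    rintro _ ⟨⟨⟨x, s⟩, q⟩, ⟨⟨hx, hs⟩, hq⟩, rfl⟩
    simp only at hx hs hq
    set t : ℝ := 3 * m * s + m with ht
    have ht0 : 0 ≤ t := by nlinarith [hs.1]
    have ht1 : t ≤ 2 * m := by nlinarith [hs.2]
    obtain ⟨i, hi, hi1, hi2⟩ : ∃ i : ℕ, i < 2 * m ∧ (i : ℝ) ≤ t ∧ t ≤ i + 1 := by
      rcases lt_or_ge t (2 * m) with h1 | h1
      · refine ⟨⌊t⌋₊, ?_, Nat.floor_le ht0, (Nat.lt_floor_add_one t).le⟩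
        rw [Nat.floor_lt ht0]
        push_cast
        exact h1
      · refine ⟨2 * m - 1, by omega, ?_, ?_⟩
        · rw [Nat.cast_sub (by omega)]
          push_cast
          linarith
        · rw [Nat.cast_sub (by omega)]
          push_cast
          linarith
    rw [Set.mem_iUnion]
    refine ⟨⟨i, hi⟩, Phi a u b 1 ((x, t - i), q), ⟨_, ⟨⟨hx, ?_, ?_⟩, hq⟩, rfl⟩, ?_⟩
    · simp only
      linarith
    · simp only
      linarith
    · simp only [Phi_apply]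
      have : (3 * m * s) • u = ((i : ℝ) - m) • u + (1 * (t - i)) • u := by
        rw [← add_smul]
        congr 1
        rw [ht]
        ring
      rw [this]
      abel
  refine (V_mono hsub).trans ((V_iUnion_le hj K hK).trans (le_of_eq ?_))
  have : ∀ i, V n (k + 1) (K i) = V n (k + 1) (Phi a u b 1 '' Bo k) := fun i =>
    V_translate hj _ _
  simp only [this, Finset.sum_const, Finset.card_univ, Fintype.card_fin, nsmul_eq_mul]

/-- The high point. -/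
theorem high_point (hj : k + 1 ≤ n) (h : FrH H a u b) (hD : Ext2 H (k + 1) D)
    (hβ : 2 * V n (k + 1) (Phi a u b 1 '' Bo k) <
      3 * V n (k + 1) (Th u b '' (Icc (0 : ℝ) 1 ×ˢ cu k))) {m : ℕ} (hm : 0 < m) :
    ∃ x ∈ Icc (0 : ℝ) 1, ∃ q ∈ cu k, ((x, 1 / 3), q) ∈ dia D a u b (3 * m) (Pl k) := by
  have hm' : (0 : ℝ) < m := by exact_mod_cast hm
  have hl : (0 : ℝ) < 3 * m := by positivity
  have hsy := dia_sy h hD hl (Pl_NC k)
  have hhor : ∀ y ∈ dia D a u b (3 * m) (Pl k), y.1.1 ∈ Icc (0 : ℝ) 1 ∧ y.2 ∈ cu k := by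
    intro y hy
    obtain ⟨s, h0, h1, -, h3⟩ := dia_hor h hD hl (Pl_NC k) hy
    exact ⟨⟨h0, h1⟩, h3⟩
  obtain ⟨y, hy, hys⟩ : ∃ y ∈ dia D a u b (3 * m) (Pl k), 1 / 3 ≤ |y.1.2| := by
    by_contra hcon
    push Not at hcon
    have h1 : dia D a u b (3 * m) (Pl k) ⊆
        (Icc (0 : ℝ) 1 ×ˢ Icc (-(1 / 3) : ℝ) (1 / 3)) ×ˢ cu k := by
      intro y hy
      obtain ⟨h2, h3⟩ := hhor y hy
      exact ⟨⟨h2, abs_le.1 (hcon y hy).le⟩, h3⟩
    have h2 : ENNReal.ofReal (3 * m) * V n (k + 1) (Th u b '' (Icc (0 : ℝ) 1 ×ˢ cu k)) ≤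
        (2 * m : ℕ) * V n (k + 1) (Phi a u b 1 '' Bo k) :=
      calc _ ≤ V n (k + 1) (Phi a u b (3 * m) '' Pl k) := V_Pl hj h.toFr hl
        _ = V n (k + 1) (Phi a u b (3 * m) '' dia D a u b (3 * m) (Pl k)) :=
            (dia_V h hD hl (Pl_NC k)).symm
        _ ≤ _ := V_mono (Set.image_mono h1)
        _ ≤ _ := V_box hj hm
    have h3 : ENNReal.ofReal (3 * m) = m * 3 := by
      rw [mul_comm, ENNReal.ofReal_mul hm'.le, ENNReal.ofReal_natCast]
      norm_num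
    have h4 : ((2 * m : ℕ) : ℝ≥0∞) = m * 2 := by
      push_cast
      ring
    rw [h3, h4, mul_assoc, mul_assoc] at h2
    have hm0 : (m : ℝ≥0∞) ≠ 0 := by exact_mod_cast hm.ne'
    have h5 := (ENNReal.mul_le_mul_iff_right hm0 (ENNReal.natCast_ne_top m)).1 h2
    exact absurd h5 (not_le.2 hβ)
  obtain ⟨h1, h2⟩ := hhor y hy
  refine ⟨y.1.1, h1, y.2, h2, hsy.seg hy ?_⟩
  rw [abs_of_pos (by norm_num)]
  exact hys

end Pool.Agent.W570.Sym
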