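import Pool.Agent.W570.Sym.Tlim

/-!
Strict monotonicity of the limit functional.
-/

namespace Pool.Agent.W570.Sym

open MeasureTheory Module Set Filter Topology
open scoped ENNReal
open Pool.Agent.Results.MP_b62b68_gt.NoSymmetrization

/-- The limit map is linear. -/
noncomputable def BmL {k : ℕ} (a v : E (k + 1)) (b : Fin k → E (k + 1)) : Y k →ₗ[ℝ] E (k + 1) where
  toFun := Bm a v b
  map_add' y z := by
    have h : hor a b (y + z) = hor a b y + hor a b z := by
      unfold hor
      simp only [Prod.fst_add, Prod.snd_add, add_smul, Pi.add_apply, Finset.sum_add_distrib]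
      abel
    unfold Bm
    rw [h, inner_add_right, add_div]
    simp only [add_smul, Prod.fst_add, Prod.snd_add]
    abel
  map_smul' c y := by
    have h : hor a b (c • y) = c • hor a b y := by
      unfold hor
      simp only [Prod.smul_fst, Prod.smul_snd, smul_eq_mul, Pi.smul_apply, mul_smul, smul_add,
        Finset.smul_sum]
    unfold Bm
    rw [h, inner_smul_right, mul_div_assoc]
    simp only [Prod.smul_fst, Prod.smul_snd, smul_eq_mul, mul_smul, smul_add, smul_sub,
      RingHom.id_apply]

theorem BmL_apply {k : ℕ} (a v : E (k + 1)) (b : Fin k → E (k + 1)) (y : Y k) :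
    BmL a v b y = Bm a v b y := rfl

theorem vol_strict {k : ℕ} (B : Y k →ₗ[ℝ] E (k + 1)) (hB : Function.Surjective B)
    {S S' : Set (Y k)} (hS : IsCompact S) (hS' : Convex ℝ S') (hSS : S ⊆ S')
    (hint : (interior S').Nonempty) {p : Y k} (hp : p ∈ S') (hpS : B p ∉ B '' S) :
    volume (B '' S) < volume (B '' S') := by
  have hBc : Continuous B := B.continuous_of_finiteDimensional
  have hc : IsClosed (B '' S) := (hS.image hBc).isClosed
  have h1 : p ∈ closure (interior S') := by
    rw [hS'.closure_interior_eq_closure_of_nonempty_interior hint]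
    exact subset_closure hp
  have h2 : IsOpen (B ⁻¹' (B '' S)ᶜ) := hc.isOpen_compl.preimage hBc
  obtain ⟨q, hq1, hq2⟩ := mem_closure_iff.1 h1 _ h2 hpS
  let Q : Set (E (k + 1)) := B '' (B ⁻¹' (B '' S)ᶜ ∩ interior S')
  have hQo : IsOpen Q :=
    B.isOpenMap_of_finiteDimensional hB _ (h2.inter isOpen_interior)
  have hQne : Q.Nonempty := ⟨B q, q, ⟨hq1, hq2⟩, rfl⟩
  have hQpos : 0 < volume Q := hQo.measure_pos volume hQne
  have hdis : Disjoint (B '' S) Q := by
    rw [Set.disjoint_left]
    rintro _ hx ⟨y, ⟨hy1, -⟩, rfl⟩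
    exact hy1 hx
  calc volume (B '' S) < volume (B '' S) + volume Q :=
        ENNReal.lt_add_right (hS.image hBc).measure_lt_top.ne hQpos.ne'
    _ = volume (B '' S ∪ Q) := (measure_union hdis hQo.measurableSet).symm
    _ ≤ volume (B '' S') := by
        refine measure_mono (Set.union_subset (Set.image_mono hSS) ?_)
        exact Set.image_mono (Set.inter_subset_right.trans interior_subset)

variable {n k : ℕ} (hj : k + 1 ≤ n) (a u : E n) (b : Fin k → E n)

/-- The limit map for the frame `g`. -/
noncomputable def Bg (g : O n) : Y k →ₗ[ℝ] E (k + 1) :=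
  BmL (A n (k + 1) hj g a) (A n (k + 1) hj g u) (fun i => A n (k + 1) hj g (b i))

theorem Bg_continuousAt {g₀ : O n} (hu : A n (k + 1) hj g₀ u ≠ 0) (y : Y k) :
    ContinuousAt (fun z : O n × Y k => Bg hj a u b z.1 z.2) (g₀, y) := by
  have hA : ∀ x : E n, Continuous (fun z : O n × Y k => A n (k + 1) hj z.1 x) := fun x =>
    ((A_continuous hj).comp continuous_fst).clm_apply continuous_const
  have hh : Continuous (fun z : O n × Y k => hor (A n (k + 1) hj z.1 a)
      (fun i => A n (k + 1) hj z.1 (b i)) z.2) := by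
    unfold hor
    refine Continuous.add ?_ ?_
    · exact (continuous_snd.fst.fst).smul (hA a)
    · refine continuous_finsetSum _ fun i _ => ?_
      exact ((continuous_apply i).comp continuous_snd.snd).smul (hA (b i))
  have hden : ‖A n (k + 1) hj (g₀, y).1 u‖ ^ 2 ≠ 0 := by
    have := norm_ne_zero_iff.2 hu
    positivity
  change ContinuousAt (fun z : O n × Y k => Bm (A n (k + 1) hj z.1 a) (A n (k + 1) hj z.1 u)
    (fun i => A n (k + 1) hj z.1 (b i)) z.2) (g₀, y)
  unfold Bm
  refine ContinuousAt.add (ContinuousAt.sub hh.continuousAt ?_) ?_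
  · have h1 : ContinuousAt (fun z : O n × Y k => inner ℝ (A n (k + 1) hj z.1 u)
        (hor (A n (k + 1) hj z.1 a) (fun i => A n (k + 1) hj z.1 (b i)) z.2) /
          ‖A n (k + 1) hj z.1 u‖ ^ 2) (g₀, y) :=
      ((hA u).inner (𝕜 := ℝ) hh).continuousAt.div ((hA u).norm.pow 2).continuousAt hden
    exact h1.smul (hA u).continuousAt
  · exact ((continuous_snd.fst.snd).smul (hA u)).continuousAt

theorem tau_eq (g : O n) (hu : A n (k + 1) hj g u ≠ 0) (M : Set (Y k)) :
    tau hj a u b M g = volume (Bg hj a u b g '' M) := by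
  unfold tau
  rw [Set.indicator_of_mem (show g ∈ {g : O n | A n (k + 1) hj g u ≠ 0} from hu)]
  rfl

theorem eventually_surj {g₀ : O n} (hu : A n (k + 1) hj g₀ u ≠ 0)
    (hs : Function.Surjective (Bg hj a u b g₀)) :
    ∀ᶠ g in 𝓝 g₀, Function.Surjective (Bg hj a u b g) := by
  obtain ⟨J, hJ⟩ := (Bg hj a u b g₀).exists_rightInverse_of_surjective (LinearMap.range_eq_top.2 hs)
  let β := (EuclideanSpace.basisFun (Fin (k + 1)) ℝ).toBasis
  let D : O n → ℝ := fun g => (LinearMap.toMatrix β β ((Bg hj a u b g).comp J)).det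
  have hD : ContinuousAt D g₀ := by
    refine Continuous.continuousAt (f := fun M : Matrix (Fin (k + 1)) (Fin (k + 1)) ℝ => M.det)
      (by fun_prop) |>.comp ?_
    refine continuousAt_pi.2 fun i => continuousAt_pi.2 fun l => ?_
    have h1 : ∀ g, LinearMap.toMatrix β β ((Bg hj a u b g).comp J) i l =
        (Bg hj a u b g (J (β l))) i := by
      intro g
      rw [LinearMap.toMatrix_apply]
      rfl
    simp only [h1]
    have h2 : ContinuousAt (fun g : O n => Bg hj a u b g (J (β l))) g₀ := by
      have h3 := Bg_continuousAt hj a u b hu (J (β l))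
      exact ContinuousAt.comp (f := fun g : O n => (g, J (β l))) h3 (by fun_prop)
    exact (EuclideanSpace.proj i : E (k + 1) →L[ℝ] ℝ).continuous.continuousAt.comp h2
  have hD0 : D g₀ ≠ 0 := by
    change (LinearMap.toMatrix β β ((Bg hj a u b g₀).comp J)).det ≠ 0
    rw [hJ, LinearMap.toMatrix_id, Matrix.det_one]
    exact one_ne_zero
  filter_upwards [hD.eventually_ne hD0] with g hg
  have h4 : IsUnit ((Bg hj a u b g).comp J) := by
    rw [LinearMap.isUnit_iff_isUnit_det, ← LinearMap.det_toMatrix β]
    exact isUnit_iff_ne_zero.2 hg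
  have h5 : Function.Surjective ((Bg hj a u b g).comp J) := by
    have := (Module.End.isUnit_iff _).1 h4
    exact this.2
  intro w
  obtain ⟨x, hx⟩ := h5 w
  exact ⟨J x, hx⟩

theorem T_strict {S S' : Set (Y k)} (hS : Sy S) (hS' : Sy S') (hSS : S ⊆ S')
    (hint : (interior S').Nonempty) (g₀ : O n) (hu : A n (k + 1) hj g₀ u ≠ 0)
    (hs : Function.Surjective (Bg hj a u b g₀)) {p : Y k} (hp : p ∈ S')
    (hpS : Bg hj a u b g₀ p ∉ Bg hj a u b g₀ '' S) :
    T hj a u b S < T hj a u b S' := by
  have hle : ∀ g, tau hj a u b S g ≤ tau hj a u b S' g := by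
    intro g
    unfold tau
    refine Set.indicator_le_indicator ?_
    exact measure_mono (Set.image_mono hSS)
  have h1 : ∀ᶠ g in 𝓝 g₀, A n (k + 1) hj g u ≠ 0 := by
    have : Continuous (fun g : O n => A n (k + 1) hj g u) :=
      (A_continuous hj).clm_apply continuous_const
    exact this.continuousAt.eventually_ne hu
  have h2 : ∀ᶠ g in 𝓝 g₀, ∀ y ∈ S, Bg hj a u b g p ≠ Bg hj a u b g y := by
    refine hS.compact.eventually_forall_of_forall_eventually fun y hy => ?_
    have h3 : ContinuousAt (fun z : O n × Y k => Bg hj a u b z.1 p - Bg hj a u b z.1 z.2)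
        (g₀, y) := by
      refine ContinuousAt.sub ?_ (Bg_continuousAt hj a u b hu y)
      exact ContinuousAt.comp (f := fun z : O n × Y k => (z.1, p)) (x := (g₀, y))
        (g := fun z : O n × Y k => Bg hj a u b z.1 z.2)
        (Bg_continuousAt hj a u b hu p) (by fun_prop)
    have h4 : Bg hj a u b g₀ p - Bg hj a u b g₀ y ≠ 0 := by
      rw [sub_ne_zero]
      intro h
      exact hpS ⟨y, hy, h.symm⟩
    filter_upwards [h3.eventually_ne h4] with z hz
    exact sub_ne_zero.1 hz
  have h5 : ∀ᶠ g in 𝓝 g₀, tau hj a u b S g < tau hj a u b S' g := by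
    filter_upwards [h1, h2, eventually_surj hj a u b hu hs] with g hg1 hg2 hg3
    rw [tau_eq hj a u b g hg1, tau_eq hj a u b g hg1]
    refine vol_strict _ hg3 hS.compact hS'.convex hSS hint hp ?_
    rintro ⟨y, hy, h⟩
    exact hg2 y hy h.symm
  unfold T
  refine lintegral_strict_mono_of_ae_le_of_ae_lt_on (s := {g | tau hj a u b S g < tau hj a u b S' g})
    (tau_measurable hj a u b hS').aemeasurable (T_lt_top hj a u b hS).ne
    (Eventually.of_forall hle) ?_ (Eventually.of_forall fun g hg => hg)
  exact (Measure.measure_pos_of_mem_nhds (haarO n) h5).ne'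

end Pool.Agent.W570.Sym
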