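import Pool.Agent.W570.Sym.Fib

/-!
The limit functional.
-/

namespace Pool.Agent.W570.Sym

open MeasureTheory Module Set Filter Topology
open scoped ENNReal
open Pool.Agent.Results.MP_b62b68_gt.NoSymmetrization

/-- The stretched parametrisation. -/
def Phi {n k : ℕ} (a u : E n) (b : Fin k → E n) (l : ℝ) : Y k →ₗ[ℝ] E n where
  toFun y := y.1.1 • a + (l * y.1.2) • u + ∑ i, y.2 i • b i
  map_add' y z := by
    simp only [Prod.fst_add, Prod.snd_add, add_smul, Pi.add_apply, Finset.sum_add_distrib, mul_add]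
    abel
  map_smul' c y := by
    simp only [Prod.smul_fst, Prod.smul_snd, smul_eq_mul, Pi.smul_apply, mul_smul, smul_add,
      Finset.smul_sum, RingHom.id_apply]
    congr 2
    rw [smul_comm]

theorem Phi_apply {n k : ℕ} (a u : E n) (b : Fin k → E n) (l : ℝ) (y : Y k) :
    Phi a u b l y = y.1.1 • a + (l * y.1.2) • u + ∑ i, y.2 i • b i := rfl

theorem Phi_continuous {n k : ℕ} (a u : E n) (b : Fin k → E n) (l : ℝ) :
    Continuous (Phi a u b l) := (Phi a u b l).continuous_of_finiteDimensional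

variable {n k : ℕ} (hj : k + 1 ≤ n) (a u : E n) (b : Fin k → E n)

theorem A_Phi (g : O n) (l : ℝ) (y : Y k) :
    A n (k + 1) hj g (Phi a u b l y) =
      Psi (A n (k + 1) hj g a) (A n (k + 1) hj g u) (fun i => A n (k + 1) hj g (b i)) l y := by
  rw [Phi_apply]
  unfold Psi hor
  simp only [map_add, map_smul, map_sum]
  abel

theorem A_Phi_image (g : O n) (l : ℝ) (X : Set (Y k)) :
    A n (k + 1) hj g '' (Phi a u b l '' X) =
      Psi (A n (k + 1) hj g a) (A n (k + 1) hj g u) (fun i => A n (k + 1) hj g (b i)) l '' X := by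
  rw [Set.image_image]
  exact Set.image_congr fun y _ => A_Phi hj a u b g l y

/-- The integrand of the limit functional. -/
noncomputable def tau (M : Set (Y k)) (g : O n) : ℝ≥0∞ :=
  ({g : O n | A n (k + 1) hj g u ≠ 0}).indicator
    (fun g => volume (Bm (A n (k + 1) hj g a) (A n (k + 1) hj g u)
      (fun i => A n (k + 1) hj g (b i)) '' M)) g

/-- The limit functional. -/
noncomputable def T (M : Set (Y k)) : ℝ≥0∞ := ∫⁻ g, tau hj a u b M g ∂(haarO n)

/-- The constant of Kubota's formula. -/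
noncomputable def cc (n k : ℕ) : ℝ≥0∞ := (n.choose (k + 1) : ℝ≥0∞)⁻¹

theorem V_Phi (l : ℝ) (X : Set (Y k)) : V n (k + 1) (Phi a u b l '' X) =
    cc n k * ∫⁻ g, volume (Psi (A n (k + 1) hj g a) (A n (k + 1) hj g u)
      (fun i => A n (k + 1) hj g (b i)) l '' X) ∂(haarO n) := by
  rw [V_eq hj]
  simp only [A_Phi_image hj a u b]
  rfl

/-- Symmetric, compact, convex sets. -/
structure Sy (M : Set (Y k)) : Prop where
  compact : IsCompact M
  convex : Convex ℝ M
  symm : ∀ y ∈ M, ((y.1.1, -y.1.2), y.2) ∈ M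

theorem tau_lower {M : Set (Y k)} (hM : Sy M) {l : ℝ} (hl : 0 ≤ l) (g : O n) :
    ENNReal.ofReal l * tau hj a u b M g ≤ volume (Psi (A n (k + 1) hj g a) (A n (k + 1) hj g u)
      (fun i => A n (k + 1) hj g (b i)) l '' M) := by
  unfold tau
  by_cases hv : A n (k + 1) hj g u ≠ 0
  · rw [Set.indicator_of_mem (show g ∈ {g : O n | A n (k + 1) hj g u ≠ 0} from hv)]
    exact lower hv hM.compact hM.convex hM.symm hl
  · rw [Set.indicator_of_notMem (show g ∉ {g : O n | A n (k + 1) hj g u ≠ 0} from hv)]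
    simp

/-- The error constant. -/
noncomputable def err (k : ℕ) (r : ℝ) : ℝ≥0∞ :=
  ENNReal.ofReal (2 * r) * ENNReal.ofReal (2 * r) ^ k +
    volume (Metric.closedBall (0 : E (k + 1)) r)

theorem err_ne_top (k : ℕ) (r : ℝ) : err k r ≠ ∞ := by
  unfold err
  refine ENNReal.add_ne_top.2 ⟨ENNReal.mul_ne_top ENNReal.ofReal_ne_top
    (ENNReal.pow_ne_top ENNReal.ofReal_ne_top), measure_closedBall_lt_top.ne⟩

theorem tau_upper {X M : Set (Y k)} (hX : IsCompact X) (hM : Sy M) (lo : ℝ → ℝ)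
    (hlo : ∀ t : ℝ, 0 ≤ t → ∀ y ∈ X, (∀ s : ℝ, ((y.1.1, s), y.2) ∈ M → 2 * |s| ≤ t) →
      lo t ≤ y.1.2 ∧ y.1.2 ≤ lo t + t)
    {l : ℝ} (hl : 0 ≤ l) {r : ℝ} (hr : 0 ≤ r) (hXr : ∀ y ∈ X, ‖Phi a u b 0 y‖ ≤ r) (g : O n) :
    volume (Psi (A n (k + 1) hj g a) (A n (k + 1) hj g u)
      (fun i => A n (k + 1) hj g (b i)) l '' X) ≤
      ENNReal.ofReal l * tau hj a u b M g + err k r := by
  have hXr' : ∀ y ∈ X, ‖hor (A n (k + 1) hj g a) (fun i => A n (k + 1) hj g (b i)) y‖ ≤ r := by
    intro y hy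
    have h1 : hor (A n (k + 1) hj g a) (fun i => A n (k + 1) hj g (b i)) y =
        A n (k + 1) hj g (Phi a u b 0 y) := by
      rw [A_Phi]
      unfold Psi
      simp
    rw [h1]
    exact (A_norm hj g _).trans (hXr y hy)
  unfold tau
  by_cases hv : A n (k + 1) hj g u ≠ 0
  · rw [Set.indicator_of_mem (show g ∈ {g : O n | A n (k + 1) hj g u ≠ 0} from hv)]
    refine (upper hv hX hM.compact hM.convex hM.symm lo hlo hl hr hXr').trans ?_
    unfold err
    gcongr
    exact le_self_add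
  · rw [Set.indicator_of_notMem (show g ∉ {g : O n | A n (k + 1) hj g u ≠ 0} from hv)]
    rw [mul_zero, zero_add]
    refine le_trans (measure_mono ?_) (le_add_self)
    rintro _ ⟨y, hy, rfl⟩
    rw [mem_closedBall_zero_iff]
    unfold Psi
    rw [not_not.1 hv, smul_zero, add_zero]
    exact hXr' y hy

theorem V_lower {M : Set (Y k)} (hM : Sy M) {l : ℝ} (hl : 0 ≤ l) :
    cc n k * (ENNReal.ofReal l * T hj a u b M) ≤ V n (k + 1) (Phi a u b l '' M) := by
  rw [V_Phi hj a u b]
  unfold T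
  rw [← lintegral_const_mul' _ _ ENNReal.ofReal_ne_top]
  gcongr with g
  exact tau_lower hj a u b hM hl g

theorem V_upper {X M : Set (Y k)} (hX : IsCompact X) (hM : Sy M) (lo : ℝ → ℝ)
    (hlo : ∀ t : ℝ, 0 ≤ t → ∀ y ∈ X, (∀ s : ℝ, ((y.1.1, s), y.2) ∈ M → 2 * |s| ≤ t) →
      lo t ≤ y.1.2 ∧ y.1.2 ≤ lo t + t)
    {l : ℝ} (hl : 0 ≤ l) {r : ℝ} (hr : 0 ≤ r) (hXr : ∀ y ∈ X, ‖Phi a u b 0 y‖ ≤ r) :
    V n (k + 1) (Phi a u b l '' X) ≤
      cc n k * (ENNReal.ofReal l * T hj a u b M + err k r) := by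
  rw [V_Phi hj a u b]
  unfold T
  rw [← lintegral_const_mul' _ _ ENNReal.ofReal_ne_top]
  gcongr
  calc ∫⁻ g, volume (Psi (A n (k + 1) hj g a) (A n (k + 1) hj g u)
      (fun i => A n (k + 1) hj g (b i)) l '' X) ∂(haarO n)
      ≤ ∫⁻ g, (ENNReal.ofReal l * tau hj a u b M g + err k r) ∂(haarO n) :=
        lintegral_mono fun g => tau_upper hj a u b hX hM lo hlo hl hr hXr g
    _ = _ := by
        rw [lintegral_add_right _ measurable_const, lintegral_const, measure_univ, mul_one]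

theorem measurable_set_u : MeasurableSet {g : O n | A n (k + 1) hj g u ≠ 0} := by
  have h1 : Continuous (fun g : O n => A n (k + 1) hj g u) :=
    (A_continuous hj).clm_apply continuous_const
  exact (isClosed_eq h1 continuous_const).isOpen_compl.measurableSet

theorem tau_measurable {M : Set (Y k)} (hM : Sy M) : Measurable (tau hj a u b M) := by
  have hKm : ∀ N : ℕ, IsCompact (Phi a u b (N + 1) '' M) := fun N =>
    hM.compact.image (Phi_continuous a u b _)
  let F : O n → ℝ≥0∞ := fun g => ⨅ N : ℕ, ((N + 1 : ℕ) : ℝ≥0∞)⁻¹ *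
    volume (A n (k + 1) hj g '' (Phi a u b (N + 1) '' M))
  have hF : Measurable F := by
    refine Measurable.iInf fun N => ?_
    exact (measurable_vol hj (hKm N)).const_mul _
  obtain ⟨r, hr0, hr⟩ : ∃ r : ℝ, 0 ≤ r ∧ ∀ y ∈ M, ‖Phi a u b 0 y‖ ≤ r := by
    obtain ⟨r, hr⟩ := (hM.compact.image (Phi_continuous a u b 0)).isBounded.subset_closedBall 0
    refine ⟨max r 0, le_max_right _ _, fun y hy => ?_⟩
    have := hr ⟨y, hy, rfl⟩
    rw [mem_closedBall_zero_iff] at this
    exact this.trans (le_max_left _ _)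
  have hcon : tau hj a u b M = ({g : O n | A n (k + 1) hj g u ≠ 0}).indicator F := by
    funext g
    by_cases hv : A n (k + 1) hj g u ≠ 0
    · rw [Set.indicator_of_mem (show g ∈ {g : O n | A n (k + 1) hj g u ≠ 0} from hv)]
      have hN0 : ∀ N : ℕ, ((N + 1 : ℕ) : ℝ≥0∞) ≠ 0 := fun N => by
        exact_mod_cast Nat.succ_ne_zero N
      have hNt : ∀ N : ℕ, ((N + 1 : ℕ) : ℝ≥0∞) ≠ ∞ := fun N => ENNReal.natCast_ne_top _
      have hof : ∀ N : ℕ, ENNReal.ofReal ((N : ℝ) + 1) = ((N + 1 : ℕ) : ℝ≥0∞) := fun N => by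
        rw [← ENNReal.ofReal_natCast]
        push_cast
        rfl
      refine le_antisymm ?_ ?_
      · refine le_iInf fun N => ?_
        rw [A_Phi_image]
        have := tau_lower hj a u b hM (l := (N : ℝ) + 1) (by positivity) g
        rw [hof] at this
        calc tau hj a u b M g = ((N + 1 : ℕ) : ℝ≥0∞)⁻¹ * (((N + 1 : ℕ) : ℝ≥0∞) *
              tau hj a u b M g) := by
              rw [← mul_assoc, ENNReal.inv_mul_cancel (hN0 N) (hNt N), one_mul]
          _ ≤ _ := by gcongr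
      · have h1 : ∀ N : ℕ, F g ≤ tau hj a u b M g + ((N + 1 : ℕ) : ℝ≥0∞)⁻¹ * err k r := by
          intro N
          refine (iInf_le _ N).trans ?_
          rw [A_Phi_image]
          have := tau_upper hj a u b hM.compact hM (fun t => -(t / 2))
            (fun t ht y hy h => by
              have h2 := h y.1.2 hy
              have h3 := abs_le.1 (show |y.1.2| ≤ t / 2 by linarith)
              constructor <;> linarith [h3.1, h3.2]) (l := (N : ℝ) + 1) (by positivity) hr0 hr g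
          rw [hof] at this
          calc _ ≤ ((N + 1 : ℕ) : ℝ≥0∞)⁻¹ * (((N + 1 : ℕ) : ℝ≥0∞) * tau hj a u b M g + err k r) := by
                gcongr
            _ = _ := by
                rw [mul_add, ← mul_assoc, ENNReal.inv_mul_cancel (hN0 N) (hNt N), one_mul]
        have h2 : Tendsto (fun N : ℕ => tau hj a u b M g + ((N + 1 : ℕ) : ℝ≥0∞)⁻¹ * err k r) atTop
            (𝓝 (tau hj a u b M g + 0 * err k r)) := by
          refine Tendsto.add tendsto_const_nhds ?_
          refine ENNReal.Tendsto.mul_const ?_ (Or.inr (err_ne_top k r))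
          exact (ENNReal.tendsto_inv_nat_nhds_zero).comp (tendsto_add_atTop_nat 1)
        rw [zero_mul, add_zero] at h2
        exact ge_of_tendsto' h2 h1
    · rw [Set.indicator_of_notMem (show g ∉ {g : O n | A n (k + 1) hj g u ≠ 0} from hv)]
      unfold tau
      rw [Set.indicator_of_notMem (show g ∉ {g : O n | A n (k + 1) hj g u ≠ 0} from hv)]
  rw [hcon]
  exact hF.indicator (measurable_set_u hj u)

theorem T_lt_top {M : Set (Y k)} (hM : Sy M) : T hj a u b M < ∞ := by
  have h1 := V_lower hj a u b hM (l := 1) zero_le_one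
  rw [ENNReal.ofReal_one, one_mul] at h1
  have h2 : V n (k + 1) (Phi a u b 1 '' M) < ∞ :=
    V_lt_top hj (hM.compact.image (Phi_continuous a u b 1)).isBounded
  have h3 := h1.trans_lt h2
  by_contra h4
  rw [not_lt, top_le_iff] at h4
  rw [h4, ENNReal.mul_top (show cc n k ≠ 0 from const_ne_zero n (k + 1))] at h3
  exact lt_irrefl _ h3

end Pool.Agent.W570.Sym
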